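import Pool.Agent.Q81.CT.Search

/-!
# The states after five steps, and the final check
-/

set_option autoImplicit false

namespace Pool.Agent.Q81.CT

/-- the list `fr 5`, written out -/
def F5 : List (List Vec) :=
   [[(1, 5, 5, 5)], [(2, 1, 5, 5), (1, 4, 4, 4)], [(2, 5, 1, 5), (1, 4, 4, 4)],
    [(2, 5, 5, 1), (1, 4, 4, 4)], [(1, 4, 5, 5), (2, 1, 4, 4)], [(2, 2, 5, 5), (1, 3, 3, 3)],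
    [(3, 1, 5, 5), (1, 3, 3, 3)], [(3, 2, 4, 5), (1, 3, 3, 3)], [(3, 2, 5, 4), (1, 3, 3, 3)],
    [(3, 4, 1, 5), (2, 1, 4, 4), (1, 3, 3, 3)], [(3, 4, 5, 1), (2, 1, 4, 4), (1, 3, 3, 3)],
    [(1, 5, 4, 5), (2, 4, 1, 4)], [(3, 1, 4, 5), (2, 4, 1, 4), (1, 3, 3, 3)],
    [(2, 5, 2, 5), (1, 3, 3, 3)], [(3, 4, 2, 5), (1, 3, 3, 3)], [(3, 5, 1, 5), (1, 3, 3, 3)],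
    [(3, 5, 2, 4), (1, 3, 3, 3)], [(3, 5, 4, 1), (2, 4, 1, 4), (1, 3, 3, 3)],
    [(1, 5, 5, 4), (2, 4, 4, 1)], [(3, 1, 5, 4), (2, 4, 4, 1), (1, 3, 3, 3)],
    [(3, 5, 1, 4), (2, 4, 4, 1), (1, 3, 3, 3)], [(2, 5, 5, 2), (1, 3, 3, 3)],
    [(3, 4, 5, 2), (1, 3, 3, 3)], [(3, 5, 4, 2), (1, 3, 3, 3)], [(3, 5, 5, 1), (1, 3, 3, 3)],
    [(1, 4, 5, 5), (2, 1, 3, 3)], [(2, 2, 5, 5), (1, 3, 4, 4)], [(2, 4, 4, 5)], [(2, 4, 5, 4)],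
    [(3, 1, 5, 5), (1, 3, 4, 4)], [(3, 4, 1, 5), (1, 3, 4, 4), (2, 1, 3, 3)],
    [(3, 4, 5, 1), (1, 3, 4, 4), (2, 1, 3, 3)], [(1, 3, 5, 5), (2, 2, 4, 4)],
    [(3, 1, 5, 5), (2, 2, 4, 4)], [(3, 3, 1, 5), (2, 2, 4, 4)], [(3, 3, 5, 1), (2, 2, 4, 4)],
    [(1, 3, 5, 5), (3, 1, 4, 4)], [(2, 2, 5, 5), (3, 1, 4, 4)], [(4, 1, 5, 5), (1, 2, 2, 2)],
    [(4, 2, 3, 5), (3, 1, 4, 4)], [(4, 2, 5, 3), (3, 1, 4, 4)],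
    [(4, 3, 1, 5), (3, 1, 4, 4), (1, 2, 2, 2)], [(4, 3, 5, 1), (3, 1, 4, 4), (1, 2, 2, 2)],
    [(1, 3, 4, 5), (3, 2, 3, 4)], [(4, 1, 4, 5), (3, 2, 3, 4)], [(4, 3, 1, 5), (3, 2, 3, 4)],
    [(4, 3, 4, 1), (3, 2, 3, 4)], [(1, 3, 5, 4), (3, 2, 4, 3)], [(4, 1, 5, 4), (3, 2, 4, 3)],
    [(4, 3, 1, 4), (3, 2, 4, 3)], [(4, 3, 5, 1), (3, 2, 4, 3)],
    [(1, 4, 4, 5), (3, 3, 1, 4), (2, 1, 3, 3)], [(4, 1, 4, 5), (3, 3, 1, 4), (1, 2, 2, 2)],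
    [(4, 2, 3, 5), (3, 3, 1, 4)], [(3, 4, 2, 5), (2, 1, 3, 3)], [(4, 3, 2, 5), (2, 1, 3, 3)],
    [(4, 4, 1, 5), (2, 1, 3, 3), (1, 2, 2, 2)], [(4, 4, 2, 4), (2, 1, 3, 3)],
    [(4, 4, 4, 1), (3, 3, 1, 4), (2, 1, 3, 3), (1, 2, 2, 2)],
    [(1, 4, 5, 4), (3, 3, 4, 1), (2, 1, 3, 3)], [(4, 1, 5, 4), (3, 3, 4, 1), (1, 2, 2, 2)],
    [(4, 2, 5, 3), (3, 3, 4, 1)], [(4, 4, 1, 4), (3, 3, 4, 1), (2, 1, 3, 3), (1, 2, 2, 2)],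
    [(3, 4, 5, 2), (2, 1, 3, 3)], [(4, 3, 5, 2), (2, 1, 3, 3)], [(4, 4, 4, 2), (2, 1, 3, 3)],
    [(4, 4, 5, 1), (2, 1, 3, 3), (1, 2, 2, 2)], [(1, 5, 4, 5), (2, 3, 1, 3)], [(2, 4, 4, 5)],
    [(2, 5, 2, 5), (1, 4, 3, 4)], [(2, 5, 4, 4)], [(3, 1, 4, 5), (1, 4, 3, 4), (2, 3, 1, 3)],
    [(3, 5, 1, 5), (1, 4, 3, 4)], [(3, 5, 4, 1), (1, 4, 3, 4), (2, 3, 1, 3)],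
    [(1, 4, 4, 5), (3, 1, 3, 4), (2, 3, 1, 3)], [(3, 2, 4, 5), (2, 3, 1, 3)],
    [(4, 1, 4, 5), (2, 3, 1, 3), (1, 2, 2, 2)], [(4, 2, 3, 5), (2, 3, 1, 3)],
    [(4, 2, 4, 4), (2, 3, 1, 3)], [(4, 3, 2, 5), (3, 1, 3, 4)],
    [(4, 4, 1, 5), (3, 1, 3, 4), (1, 2, 2, 2)],
    [(4, 4, 4, 1), (3, 1, 3, 4), (2, 3, 1, 3), (1, 2, 2, 2)], [(1, 5, 3, 5), (2, 4, 2, 4)],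
    [(3, 1, 3, 5), (2, 4, 2, 4)], [(3, 5, 1, 5), (2, 4, 2, 4)], [(3, 5, 3, 1), (2, 4, 2, 4)],
    [(1, 4, 3, 5), (3, 3, 2, 4)], [(4, 1, 3, 5), (3, 3, 2, 4)], [(4, 4, 1, 5), (3, 3, 2, 4)],
    [(4, 4, 3, 1), (3, 3, 2, 4)], [(1, 5, 3, 5), (3, 4, 1, 4)],
    [(4, 1, 3, 5), (3, 4, 1, 4), (1, 2, 2, 2)], [(2, 5, 2, 5), (3, 4, 1, 4)],
    [(4, 3, 2, 5), (3, 4, 1, 4)], [(4, 5, 1, 5), (1, 2, 2, 2)], [(4, 5, 2, 3), (3, 4, 1, 4)],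
    [(4, 5, 3, 1), (3, 4, 1, 4), (1, 2, 2, 2)], [(1, 5, 3, 4), (3, 4, 2, 3)],
    [(4, 1, 3, 4), (3, 4, 2, 3)], [(4, 5, 1, 4), (3, 4, 2, 3)], [(4, 5, 3, 1), (3, 4, 2, 3)],
    [(1, 5, 4, 4), (3, 4, 3, 1), (2, 3, 1, 3)],
    [(4, 1, 4, 4), (3, 4, 3, 1), (2, 3, 1, 3), (1, 2, 2, 2)],
    [(4, 5, 1, 4), (3, 4, 3, 1), (1, 2, 2, 2)], [(4, 5, 2, 3), (3, 4, 3, 1)],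
    [(3, 5, 4, 2), (2, 3, 1, 3)], [(4, 4, 4, 2), (2, 3, 1, 3)], [(4, 5, 3, 2), (2, 3, 1, 3)],
    [(4, 5, 4, 1), (2, 3, 1, 3), (1, 2, 2, 2)], [(1, 5, 5, 4), (2, 3, 3, 1)], [(2, 4, 5, 4)],
    [(2, 5, 4, 4)], [(2, 5, 5, 2), (1, 4, 4, 3)], [(3, 1, 5, 4), (1, 4, 4, 3), (2, 3, 3, 1)],
    [(3, 5, 1, 4), (1, 4, 4, 3), (2, 3, 3, 1)], [(3, 5, 5, 1), (1, 4, 4, 3)],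
    [(1, 4, 5, 4), (3, 1, 4, 3), (2, 3, 3, 1)], [(3, 2, 5, 4), (2, 3, 3, 1)],
    [(4, 1, 5, 4), (2, 3, 3, 1), (1, 2, 2, 2)], [(4, 2, 4, 4), (2, 3, 3, 1)],
    [(4, 2, 5, 3), (2, 3, 3, 1)], [(4, 4, 1, 4), (3, 1, 4, 3), (2, 3, 3, 1), (1, 2, 2, 2)],
    [(4, 3, 5, 2), (3, 1, 4, 3)], [(4, 4, 5, 1), (3, 1, 4, 3), (1, 2, 2, 2)],
    [(1, 5, 4, 4), (3, 4, 1, 3), (2, 3, 3, 1)],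
    [(4, 1, 4, 4), (3, 4, 1, 3), (2, 3, 3, 1), (1, 2, 2, 2)], [(3, 5, 2, 4), (2, 3, 3, 1)],
    [(4, 4, 2, 4), (2, 3, 3, 1)], [(4, 5, 1, 4), (2, 3, 3, 1), (1, 2, 2, 2)],
    [(4, 5, 2, 3), (2, 3, 3, 1)], [(4, 5, 3, 2), (3, 4, 1, 3)],
    [(4, 5, 4, 1), (3, 4, 1, 3), (1, 2, 2, 2)], [(1, 5, 5, 3), (2, 4, 4, 2)],
    [(3, 1, 5, 3), (2, 4, 4, 2)], [(3, 5, 1, 3), (2, 4, 4, 2)], [(3, 5, 5, 1), (2, 4, 4, 2)],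
    [(1, 4, 5, 3), (3, 3, 4, 2)], [(4, 1, 5, 3), (3, 3, 4, 2)], [(4, 4, 1, 3), (3, 3, 4, 2)],
    [(4, 4, 5, 1), (3, 3, 4, 2)], [(1, 5, 4, 3), (3, 4, 3, 2)], [(4, 1, 4, 3), (3, 4, 3, 2)],
    [(4, 5, 1, 3), (3, 4, 3, 2)], [(4, 5, 4, 1), (3, 4, 3, 2)], [(1, 5, 5, 3), (3, 4, 4, 1)],
    [(4, 1, 5, 3), (3, 4, 4, 1), (1, 2, 2, 2)], [(4, 5, 1, 3), (3, 4, 4, 1), (1, 2, 2, 2)],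
    [(2, 5, 5, 2), (3, 4, 4, 1)], [(4, 3, 5, 2), (3, 4, 4, 1)], [(4, 5, 3, 2), (3, 4, 4, 1)],
    [(4, 5, 5, 1), (1, 2, 2, 2)], [(1, 4, 5, 5), (2, 1, 2, 2)], [(2, 2, 5, 5), (1, 3, 4, 4)],
    [(2, 4, 3, 5), (1, 3, 4, 4)], [(2, 4, 5, 3), (1, 3, 4, 4)], [(3, 1, 5, 5), (1, 3, 4, 4)],
    [(3, 4, 1, 5), (1, 3, 4, 4), (2, 1, 2, 2)], [(3, 4, 5, 1), (1, 3, 4, 4), (2, 1, 2, 2)],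
    [(1, 3, 5, 5), (2, 2, 4, 4)], [(3, 1, 5, 5), (2, 2, 4, 4)], [(3, 3, 1, 5), (2, 2, 4, 4)],
    [(3, 3, 5, 1), (2, 2, 4, 4)], [(1, 4, 4, 5), (2, 3, 3, 4)], [(3, 1, 4, 5), (2, 3, 3, 4)],
    [(3, 4, 1, 5), (2, 3, 3, 4)], [(3, 4, 4, 1), (2, 3, 3, 4)], [(1, 4, 5, 4), (2, 3, 4, 3)],
    [(3, 1, 5, 4), (2, 3, 4, 3)], [(3, 4, 1, 4), (2, 3, 4, 3)], [(3, 4, 5, 1), (2, 3, 4, 3)],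
    [(1, 3, 5, 5), (3, 1, 4, 4)], [(2, 2, 5, 5), (3, 1, 4, 4)], [(4, 1, 5, 5), (1, 2, 3, 3)],
    [(4, 2, 4, 5)], [(4, 2, 5, 4)], [(4, 3, 1, 5), (3, 1, 4, 4), (1, 2, 3, 3)],
    [(4, 3, 5, 1), (3, 1, 4, 4), (1, 2, 3, 3)], [(1, 4, 4, 5), (3, 3, 1, 4), (2, 1, 2, 2)],
    [(2, 4, 3, 5), (3, 3, 1, 4)], [(4, 1, 4, 5), (3, 3, 1, 4), (1, 2, 3, 3)],
    [(3, 4, 2, 5), (1, 2, 3, 3)], [(4, 3, 2, 5), (1, 2, 3, 3)],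
    [(4, 4, 1, 5), (1, 2, 3, 3), (2, 1, 2, 2)], [(4, 4, 2, 4), (1, 2, 3, 3)],
    [(4, 4, 4, 1), (3, 3, 1, 4), (1, 2, 3, 3), (2, 1, 2, 2)],
    [(1, 4, 5, 4), (3, 3, 4, 1), (2, 1, 2, 2)], [(2, 4, 5, 3), (3, 3, 4, 1)],
    [(4, 1, 5, 4), (3, 3, 4, 1), (1, 2, 3, 3)],
    [(4, 4, 1, 4), (3, 3, 4, 1), (1, 2, 3, 3), (2, 1, 2, 2)], [(3, 4, 5, 2), (1, 2, 3, 3)],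
    [(4, 3, 5, 2), (1, 2, 3, 3)], [(4, 4, 4, 2), (1, 2, 3, 3)],
    [(4, 4, 5, 1), (1, 2, 3, 3), (2, 1, 2, 2)], [(1, 3, 5, 5), (3, 1, 3, 3)],
    [(2, 2, 5, 5), (3, 1, 3, 3)], [(2, 3, 4, 5), (3, 1, 3, 3)], [(2, 3, 5, 4), (3, 1, 3, 3)],
    [(4, 1, 5, 5), (1, 2, 4, 4)], [(4, 3, 1, 5), (1, 2, 4, 4), (3, 1, 3, 3)],
    [(4, 3, 5, 1), (1, 2, 4, 4), (3, 1, 3, 3)], [(1, 2, 5, 5), (4, 1, 4, 4)], [(5, 1, 5, 5)],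
    [(5, 2, 1, 5), (4, 1, 4, 4)], [(5, 2, 5, 1), (4, 1, 4, 4)],
    [(1, 3, 4, 5), (4, 2, 1, 4), (3, 1, 3, 3)], [(5, 1, 4, 5), (4, 2, 1, 4)],
    [(4, 3, 2, 5), (3, 1, 3, 3)], [(5, 2, 2, 5), (3, 1, 3, 3)], [(5, 3, 1, 5), (3, 1, 3, 3)],
    [(5, 3, 2, 4), (3, 1, 3, 3)], [(5, 3, 4, 1), (4, 2, 1, 4), (3, 1, 3, 3)],
    [(1, 3, 5, 4), (4, 2, 4, 1), (3, 1, 3, 3)], [(5, 1, 5, 4), (4, 2, 4, 1)],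
    [(5, 3, 1, 4), (4, 2, 4, 1), (3, 1, 3, 3)], [(4, 3, 5, 2), (3, 1, 3, 3)],
    [(5, 2, 5, 2), (3, 1, 3, 3)], [(5, 3, 4, 2), (3, 1, 3, 3)], [(5, 3, 5, 1), (3, 1, 3, 3)],
    [(1, 4, 4, 5), (3, 2, 1, 3), (2, 1, 2, 2)], [(2, 3, 4, 5), (3, 2, 1, 3)],
    [(2, 4, 3, 5), (3, 2, 1, 3)], [(2, 4, 4, 4), (3, 2, 1, 3)],
    [(4, 1, 4, 5), (1, 3, 3, 4), (3, 2, 1, 3)], [(3, 4, 2, 5), (1, 3, 3, 4)],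
    [(4, 4, 1, 5), (1, 3, 3, 4), (2, 1, 2, 2)],
    [(4, 4, 4, 1), (1, 3, 3, 4), (3, 2, 1, 3), (2, 1, 2, 2)],
    [(1, 3, 4, 5), (4, 1, 3, 4), (3, 2, 1, 3)], [(4, 2, 4, 5)], [(5, 1, 4, 5), (3, 2, 1, 3)],
    [(5, 2, 2, 5), (4, 1, 3, 4)], [(5, 2, 4, 4)], [(5, 3, 1, 5), (4, 1, 3, 4)],
    [(5, 3, 4, 1), (4, 1, 3, 4), (3, 2, 1, 3)], [(1, 4, 3, 5), (3, 3, 2, 4)],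
    [(4, 1, 3, 5), (3, 3, 2, 4)], [(4, 4, 1, 5), (3, 3, 2, 4)], [(4, 4, 3, 1), (3, 3, 2, 4)],
    [(1, 3, 3, 5), (4, 2, 2, 4)], [(5, 1, 3, 5), (4, 2, 2, 4)], [(5, 3, 1, 5), (4, 2, 2, 4)],
    [(5, 3, 3, 1), (4, 2, 2, 4)], [(1, 4, 3, 5), (4, 3, 1, 4), (2, 1, 2, 2)],
    [(5, 1, 3, 5), (4, 3, 1, 4)], [(3, 4, 2, 5), (4, 3, 1, 4)], [(5, 2, 2, 5), (4, 3, 1, 4)],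
    [(5, 4, 1, 5), (2, 1, 2, 2)], [(5, 4, 2, 3), (4, 3, 1, 4)],
    [(5, 4, 3, 1), (4, 3, 1, 4), (2, 1, 2, 2)], [(1, 4, 3, 4), (4, 3, 2, 3)],
    [(5, 1, 3, 4), (4, 3, 2, 3)], [(5, 4, 1, 4), (4, 3, 2, 3)], [(5, 4, 3, 1), (4, 3, 2, 3)],
    [(1, 4, 4, 4), (4, 3, 3, 1), (3, 2, 1, 3), (2, 1, 2, 2)],
    [(5, 1, 4, 4), (4, 3, 3, 1), (3, 2, 1, 3)], [(5, 4, 1, 4), (4, 3, 3, 1), (2, 1, 2, 2)],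
    [(5, 4, 2, 3), (4, 3, 3, 1)], [(4, 4, 4, 2), (3, 2, 1, 3)], [(5, 3, 4, 2), (3, 2, 1, 3)],
    [(5, 4, 3, 2), (3, 2, 1, 3)], [(5, 4, 4, 1), (3, 2, 1, 3), (2, 1, 2, 2)],
    [(1, 4, 5, 4), (3, 2, 3, 1), (2, 1, 2, 2)], [(2, 3, 5, 4), (3, 2, 3, 1)],
    [(2, 4, 4, 4), (3, 2, 3, 1)], [(2, 4, 5, 3), (3, 2, 3, 1)],
    [(4, 1, 5, 4), (1, 3, 4, 3), (3, 2, 3, 1)],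
    [(4, 4, 1, 4), (1, 3, 4, 3), (3, 2, 3, 1), (2, 1, 2, 2)], [(3, 4, 5, 2), (1, 3, 4, 3)],
    [(4, 4, 5, 1), (1, 3, 4, 3), (2, 1, 2, 2)], [(1, 3, 5, 4), (4, 1, 4, 3), (3, 2, 3, 1)],
    [(4, 2, 5, 4)], [(5, 1, 5, 4), (3, 2, 3, 1)], [(5, 2, 4, 4)], [(5, 2, 5, 2), (4, 1, 4, 3)],
    [(5, 3, 1, 4), (4, 1, 4, 3), (3, 2, 3, 1)], [(5, 3, 5, 1), (4, 1, 4, 3)],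
    [(1, 4, 4, 4), (4, 3, 1, 3), (3, 2, 3, 1), (2, 1, 2, 2)],
    [(5, 1, 4, 4), (4, 3, 1, 3), (3, 2, 3, 1)], [(4, 4, 2, 4), (3, 2, 3, 1)],
    [(5, 3, 2, 4), (3, 2, 3, 1)], [(5, 4, 1, 4), (3, 2, 3, 1), (2, 1, 2, 2)],
    [(5, 4, 2, 3), (3, 2, 3, 1)], [(5, 4, 3, 2), (4, 3, 1, 3)],
    [(5, 4, 4, 1), (4, 3, 1, 3), (2, 1, 2, 2)], [(1, 4, 5, 3), (3, 3, 4, 2)],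
    [(4, 1, 5, 3), (3, 3, 4, 2)], [(4, 4, 1, 3), (3, 3, 4, 2)], [(4, 4, 5, 1), (3, 3, 4, 2)],
    [(1, 3, 5, 3), (4, 2, 4, 2)], [(5, 1, 5, 3), (4, 2, 4, 2)], [(5, 3, 1, 3), (4, 2, 4, 2)],
    [(5, 3, 5, 1), (4, 2, 4, 2)], [(1, 4, 4, 3), (4, 3, 3, 2)], [(5, 1, 4, 3), (4, 3, 3, 2)],
    [(5, 4, 1, 3), (4, 3, 3, 2)], [(5, 4, 4, 1), (4, 3, 3, 2)],
    [(1, 4, 5, 3), (4, 3, 4, 1), (2, 1, 2, 2)], [(5, 1, 5, 3), (4, 3, 4, 1)],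
    [(5, 4, 1, 3), (4, 3, 4, 1), (2, 1, 2, 2)], [(3, 4, 5, 2), (4, 3, 4, 1)],
    [(5, 2, 5, 2), (4, 3, 4, 1)], [(5, 4, 3, 2), (4, 3, 4, 1)], [(5, 4, 5, 1), (2, 1, 2, 2)],
    [(1, 5, 4, 5), (2, 2, 1, 2)], [(2, 3, 4, 5), (1, 4, 3, 4)], [(2, 5, 2, 5), (1, 4, 3, 4)],
    [(2, 5, 4, 3), (1, 4, 3, 4)], [(3, 1, 4, 5), (1, 4, 3, 4), (2, 2, 1, 2)],
    [(3, 5, 1, 5), (1, 4, 3, 4)], [(3, 5, 4, 1), (1, 4, 3, 4), (2, 2, 1, 2)],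
    [(1, 4, 4, 5), (2, 3, 3, 4)], [(3, 1, 4, 5), (2, 3, 3, 4)], [(3, 4, 1, 5), (2, 3, 3, 4)],
    [(3, 4, 4, 1), (2, 3, 3, 4)], [(1, 5, 3, 5), (2, 4, 2, 4)], [(3, 1, 3, 5), (2, 4, 2, 4)],
    [(3, 5, 1, 5), (2, 4, 2, 4)], [(3, 5, 3, 1), (2, 4, 2, 4)], [(1, 5, 4, 4), (2, 4, 3, 3)],
    [(3, 1, 4, 4), (2, 4, 3, 3)], [(3, 5, 1, 4), (2, 4, 3, 3)], [(3, 5, 4, 1), (2, 4, 3, 3)],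
    [(1, 4, 4, 5), (3, 1, 3, 4), (2, 2, 1, 2)], [(2, 3, 4, 5), (3, 1, 3, 4)],
    [(3, 2, 4, 5), (1, 3, 2, 3)], [(4, 1, 4, 5), (1, 3, 2, 3), (2, 2, 1, 2)],
    [(4, 2, 3, 5), (1, 3, 2, 3)], [(4, 2, 4, 4), (1, 3, 2, 3)],
    [(4, 4, 1, 5), (3, 1, 3, 4), (1, 3, 2, 3)],
    [(4, 4, 4, 1), (3, 1, 3, 4), (1, 3, 2, 3), (2, 2, 1, 2)], [(1, 5, 3, 5), (3, 4, 1, 4)],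
    [(4, 1, 3, 5), (3, 4, 1, 4), (1, 3, 2, 3)], [(2, 5, 2, 5), (3, 4, 1, 4)], [(4, 4, 2, 5)],
    [(4, 5, 1, 5), (1, 3, 2, 3)], [(4, 5, 2, 4)], [(4, 5, 3, 1), (3, 4, 1, 4), (1, 3, 2, 3)],
    [(1, 5, 4, 4), (3, 4, 3, 1), (2, 2, 1, 2)], [(2, 5, 4, 3), (3, 4, 3, 1)],
    [(4, 1, 4, 4), (3, 4, 3, 1), (1, 3, 2, 3), (2, 2, 1, 2)],
    [(4, 5, 1, 4), (3, 4, 3, 1), (1, 3, 2, 3)], [(3, 5, 4, 2), (1, 3, 2, 3)],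
    [(4, 4, 4, 2), (1, 3, 2, 3)], [(4, 5, 3, 2), (1, 3, 2, 3)],
    [(4, 5, 4, 1), (1, 3, 2, 3), (2, 2, 1, 2)], [(1, 4, 4, 5), (3, 1, 2, 3), (2, 2, 1, 2)],
    [(2, 3, 4, 5), (3, 1, 2, 3)], [(2, 4, 3, 5), (3, 1, 2, 3)], [(2, 4, 4, 4), (3, 1, 2, 3)],
    [(3, 2, 4, 5), (1, 3, 3, 4)], [(4, 1, 4, 5), (1, 3, 3, 4), (2, 2, 1, 2)],
    [(4, 4, 1, 5), (1, 3, 3, 4), (3, 1, 2, 3)],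
    [(4, 4, 4, 1), (1, 3, 3, 4), (3, 1, 2, 3), (2, 2, 1, 2)], [(1, 3, 4, 5), (3, 2, 3, 4)],
    [(4, 1, 4, 5), (3, 2, 3, 4)], [(4, 3, 1, 5), (3, 2, 3, 4)], [(4, 3, 4, 1), (3, 2, 3, 4)],
    [(1, 3, 4, 5), (4, 1, 3, 4), (2, 2, 1, 2)], [(3, 2, 4, 5), (4, 1, 3, 4)],
    [(5, 1, 4, 5), (2, 2, 1, 2)], [(5, 2, 2, 5), (4, 1, 3, 4)], [(5, 2, 4, 3), (4, 1, 3, 4)],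
    [(5, 3, 1, 5), (4, 1, 3, 4)], [(5, 3, 4, 1), (4, 1, 3, 4), (2, 2, 1, 2)],
    [(1, 3, 3, 5), (4, 2, 2, 4)], [(5, 1, 3, 5), (4, 2, 2, 4)], [(5, 3, 1, 5), (4, 2, 2, 4)],
    [(5, 3, 3, 1), (4, 2, 2, 4)], [(1, 3, 4, 4), (4, 2, 3, 3)], [(5, 1, 4, 4), (4, 2, 3, 3)],
    [(5, 3, 1, 4), (4, 2, 3, 3)], [(5, 3, 4, 1), (4, 2, 3, 3)],
    [(1, 4, 3, 5), (4, 3, 1, 4), (3, 1, 2, 3)], [(5, 1, 3, 5), (4, 3, 1, 4)], [(4, 4, 2, 5)],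
    [(5, 2, 2, 5), (4, 3, 1, 4)], [(5, 4, 1, 5), (3, 1, 2, 3)], [(5, 4, 2, 4)],
    [(5, 4, 3, 1), (4, 3, 1, 4), (3, 1, 2, 3)],
    [(1, 4, 4, 4), (4, 3, 3, 1), (3, 1, 2, 3), (2, 2, 1, 2)],
    [(5, 1, 4, 4), (4, 3, 3, 1), (2, 2, 1, 2)], [(5, 2, 4, 3), (4, 3, 3, 1)],
    [(5, 4, 1, 4), (4, 3, 3, 1), (3, 1, 2, 3)], [(4, 4, 4, 2), (3, 1, 2, 3)],
    [(5, 3, 4, 2), (3, 1, 2, 3)], [(5, 4, 3, 2), (3, 1, 2, 3)],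
    [(5, 4, 4, 1), (3, 1, 2, 3), (2, 2, 1, 2)], [(1, 5, 3, 5), (3, 3, 1, 3)],
    [(2, 4, 3, 5), (3, 3, 1, 3)], [(2, 5, 2, 5), (3, 3, 1, 3)], [(2, 5, 3, 4), (3, 3, 1, 3)],
    [(4, 1, 3, 5), (1, 4, 2, 4), (3, 3, 1, 3)], [(4, 5, 1, 5), (1, 4, 2, 4)],
    [(4, 5, 3, 1), (1, 4, 2, 4), (3, 3, 1, 3)], [(1, 4, 3, 5), (4, 1, 2, 4), (3, 3, 1, 3)],
    [(4, 2, 3, 5), (3, 3, 1, 3)], [(5, 1, 3, 5), (3, 3, 1, 3)], [(5, 2, 2, 5), (3, 3, 1, 3)],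
    [(5, 2, 3, 4), (3, 3, 1, 3)], [(5, 4, 1, 5), (4, 1, 2, 4)],
    [(5, 4, 3, 1), (4, 1, 2, 4), (3, 3, 1, 3)], [(1, 5, 2, 5), (4, 4, 1, 4)],
    [(5, 1, 2, 5), (4, 4, 1, 4)], [(5, 5, 1, 5)], [(5, 5, 2, 1), (4, 4, 1, 4)],
    [(1, 5, 3, 4), (4, 4, 2, 1), (3, 3, 1, 3)], [(5, 1, 3, 4), (4, 4, 2, 1), (3, 3, 1, 3)],
    [(5, 5, 1, 4), (4, 4, 2, 1)], [(4, 5, 3, 2), (3, 3, 1, 3)], [(5, 4, 3, 2), (3, 3, 1, 3)],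
    [(5, 5, 2, 2), (3, 3, 1, 3)], [(5, 5, 3, 1), (3, 3, 1, 3)],
    [(1, 5, 4, 4), (3, 3, 2, 1), (2, 2, 1, 2)], [(2, 4, 4, 4), (3, 3, 2, 1)],
    [(2, 5, 3, 4), (3, 3, 2, 1)], [(2, 5, 4, 3), (3, 3, 2, 1)],
    [(4, 1, 4, 4), (1, 4, 3, 3), (3, 3, 2, 1), (2, 2, 1, 2)],
    [(4, 5, 1, 4), (1, 4, 3, 3), (3, 3, 2, 1)], [(3, 5, 4, 2), (1, 4, 3, 3)],
    [(4, 5, 4, 1), (1, 4, 3, 3), (2, 2, 1, 2)],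
    [(1, 4, 4, 4), (4, 1, 3, 3), (3, 3, 2, 1), (2, 2, 1, 2)], [(4, 2, 4, 4), (3, 3, 2, 1)],
    [(5, 1, 4, 4), (3, 3, 2, 1), (2, 2, 1, 2)], [(5, 2, 3, 4), (3, 3, 2, 1)],
    [(5, 2, 4, 3), (3, 3, 2, 1)], [(5, 4, 1, 4), (4, 1, 3, 3), (3, 3, 2, 1)],
    [(5, 3, 4, 2), (4, 1, 3, 3)], [(5, 4, 4, 1), (4, 1, 3, 3), (2, 2, 1, 2)],
    [(1, 5, 3, 4), (4, 4, 1, 3), (3, 3, 2, 1)], [(5, 1, 3, 4), (4, 4, 1, 3), (3, 3, 2, 1)],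
    [(4, 5, 2, 4)], [(5, 4, 2, 4)], [(5, 5, 1, 4), (3, 3, 2, 1)], [(5, 5, 2, 2), (4, 4, 1, 3)],
    [(5, 5, 3, 1), (4, 4, 1, 3)], [(1, 5, 4, 3), (3, 4, 3, 2)], [(4, 1, 4, 3), (3, 4, 3, 2)],
    [(4, 5, 1, 3), (3, 4, 3, 2)], [(4, 5, 4, 1), (3, 4, 3, 2)], [(1, 4, 4, 3), (4, 3, 3, 2)],
    [(5, 1, 4, 3), (4, 3, 3, 2)], [(5, 4, 1, 3), (4, 3, 3, 2)], [(5, 4, 4, 1), (4, 3, 3, 2)],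
    [(1, 5, 3, 3), (4, 4, 2, 2)], [(5, 1, 3, 3), (4, 4, 2, 2)], [(5, 5, 1, 3), (4, 4, 2, 2)],
    [(5, 5, 3, 1), (4, 4, 2, 2)], [(1, 5, 4, 3), (4, 4, 3, 1), (2, 2, 1, 2)],
    [(5, 1, 4, 3), (4, 4, 3, 1), (2, 2, 1, 2)], [(5, 5, 1, 3), (4, 4, 3, 1)],
    [(3, 5, 4, 2), (4, 4, 3, 1)], [(5, 3, 4, 2), (4, 4, 3, 1)], [(5, 5, 2, 2), (4, 4, 3, 1)],
    [(5, 5, 4, 1), (2, 2, 1, 2)], [(1, 5, 5, 4), (2, 2, 2, 1)], [(2, 3, 5, 4), (1, 4, 4, 3)],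
    [(2, 5, 3, 4), (1, 4, 4, 3)], [(2, 5, 5, 2), (1, 4, 4, 3)],
    [(3, 1, 5, 4), (1, 4, 4, 3), (2, 2, 2, 1)], [(3, 5, 1, 4), (1, 4, 4, 3), (2, 2, 2, 1)],
    [(3, 5, 5, 1), (1, 4, 4, 3)], [(1, 4, 5, 4), (2, 3, 4, 3)], [(3, 1, 5, 4), (2, 3, 4, 3)],
    [(3, 4, 1, 4), (2, 3, 4, 3)], [(3, 4, 5, 1), (2, 3, 4, 3)], [(1, 5, 4, 4), (2, 4, 3, 3)],
    [(3, 1, 4, 4), (2, 4, 3, 3)], [(3, 5, 1, 4), (2, 4, 3, 3)], [(3, 5, 4, 1), (2, 4, 3, 3)],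
    [(1, 5, 5, 3), (2, 4, 4, 2)], [(3, 1, 5, 3), (2, 4, 4, 2)], [(3, 5, 1, 3), (2, 4, 4, 2)],
    [(3, 5, 5, 1), (2, 4, 4, 2)], [(1, 4, 5, 4), (3, 1, 4, 3), (2, 2, 2, 1)],
    [(2, 3, 5, 4), (3, 1, 4, 3)], [(3, 2, 5, 4), (1, 3, 3, 2)],
    [(4, 1, 5, 4), (1, 3, 3, 2), (2, 2, 2, 1)], [(4, 2, 4, 4), (1, 3, 3, 2)],
    [(4, 2, 5, 3), (1, 3, 3, 2)], [(4, 4, 1, 4), (3, 1, 4, 3), (1, 3, 3, 2), (2, 2, 2, 1)],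
    [(4, 4, 5, 1), (3, 1, 4, 3), (1, 3, 3, 2)], [(1, 5, 4, 4), (3, 4, 1, 3), (2, 2, 2, 1)],
    [(2, 5, 3, 4), (3, 4, 1, 3)], [(4, 1, 4, 4), (3, 4, 1, 3), (1, 3, 3, 2), (2, 2, 2, 1)],
    [(3, 5, 2, 4), (1, 3, 3, 2)], [(4, 4, 2, 4), (1, 3, 3, 2)],
    [(4, 5, 1, 4), (1, 3, 3, 2), (2, 2, 2, 1)], [(4, 5, 2, 3), (1, 3, 3, 2)],
    [(4, 5, 4, 1), (3, 4, 1, 3), (1, 3, 3, 2)], [(1, 5, 5, 3), (3, 4, 4, 1)],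
    [(4, 1, 5, 3), (3, 4, 4, 1), (1, 3, 3, 2)], [(4, 5, 1, 3), (3, 4, 4, 1), (1, 3, 3, 2)],
    [(2, 5, 5, 2), (3, 4, 4, 1)], [(4, 4, 5, 2)], [(4, 5, 4, 2)], [(4, 5, 5, 1), (1, 3, 3, 2)],
    [(1, 4, 5, 4), (3, 1, 3, 2), (2, 2, 2, 1)], [(2, 3, 5, 4), (3, 1, 3, 2)],
    [(2, 4, 4, 4), (3, 1, 3, 2)], [(2, 4, 5, 3), (3, 1, 3, 2)], [(3, 2, 5, 4), (1, 3, 4, 3)],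
    [(4, 1, 5, 4), (1, 3, 4, 3), (2, 2, 2, 1)],
    [(4, 4, 1, 4), (1, 3, 4, 3), (3, 1, 3, 2), (2, 2, 2, 1)],
    [(4, 4, 5, 1), (1, 3, 4, 3), (3, 1, 3, 2)], [(1, 3, 5, 4), (3, 2, 4, 3)],
    [(4, 1, 5, 4), (3, 2, 4, 3)], [(4, 3, 1, 4), (3, 2, 4, 3)], [(4, 3, 5, 1), (3, 2, 4, 3)],
    [(1, 3, 5, 4), (4, 1, 4, 3), (2, 2, 2, 1)], [(3, 2, 5, 4), (4, 1, 4, 3)],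
    [(5, 1, 5, 4), (2, 2, 2, 1)], [(5, 2, 3, 4), (4, 1, 4, 3)], [(5, 2, 5, 2), (4, 1, 4, 3)],
    [(5, 3, 1, 4), (4, 1, 4, 3), (2, 2, 2, 1)], [(5, 3, 5, 1), (4, 1, 4, 3)],
    [(1, 3, 4, 4), (4, 2, 3, 3)], [(5, 1, 4, 4), (4, 2, 3, 3)], [(5, 3, 1, 4), (4, 2, 3, 3)],
    [(5, 3, 4, 1), (4, 2, 3, 3)], [(1, 3, 5, 3), (4, 2, 4, 2)], [(5, 1, 5, 3), (4, 2, 4, 2)],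
    [(5, 3, 1, 3), (4, 2, 4, 2)], [(5, 3, 5, 1), (4, 2, 4, 2)],
    [(1, 4, 4, 4), (4, 3, 1, 3), (3, 1, 3, 2), (2, 2, 2, 1)],
    [(5, 1, 4, 4), (4, 3, 1, 3), (2, 2, 2, 1)], [(5, 2, 3, 4), (4, 3, 1, 3)],
    [(4, 4, 2, 4), (3, 1, 3, 2)], [(5, 3, 2, 4), (3, 1, 3, 2)],
    [(5, 4, 1, 4), (3, 1, 3, 2), (2, 2, 2, 1)], [(5, 4, 2, 3), (3, 1, 3, 2)],
    [(5, 4, 4, 1), (4, 3, 1, 3), (3, 1, 3, 2)], [(1, 4, 5, 3), (4, 3, 4, 1), (3, 1, 3, 2)],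
    [(5, 1, 5, 3), (4, 3, 4, 1)], [(5, 4, 1, 3), (4, 3, 4, 1), (3, 1, 3, 2)], [(4, 4, 5, 2)],
    [(5, 2, 5, 2), (4, 3, 4, 1)], [(5, 4, 4, 2)], [(5, 4, 5, 1), (3, 1, 3, 2)],
    [(1, 5, 4, 4), (3, 3, 1, 2), (2, 2, 2, 1)], [(2, 4, 4, 4), (3, 3, 1, 2)],
    [(2, 5, 3, 4), (3, 3, 1, 2)], [(2, 5, 4, 3), (3, 3, 1, 2)],
    [(4, 1, 4, 4), (1, 4, 3, 3), (3, 3, 1, 2), (2, 2, 2, 1)], [(3, 5, 2, 4), (1, 4, 3, 3)],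
    [(4, 5, 1, 4), (1, 4, 3, 3), (2, 2, 2, 1)], [(4, 5, 4, 1), (1, 4, 3, 3), (3, 3, 1, 2)],
    [(1, 4, 4, 4), (4, 1, 3, 3), (3, 3, 1, 2), (2, 2, 2, 1)], [(4, 2, 4, 4), (3, 3, 1, 2)],
    [(5, 1, 4, 4), (3, 3, 1, 2), (2, 2, 2, 1)], [(5, 2, 3, 4), (3, 3, 1, 2)],
    [(5, 2, 4, 3), (3, 3, 1, 2)], [(5, 3, 2, 4), (4, 1, 3, 3)],
    [(5, 4, 1, 4), (4, 1, 3, 3), (2, 2, 2, 1)], [(5, 4, 4, 1), (4, 1, 3, 3), (3, 3, 1, 2)],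
    [(1, 5, 3, 4), (3, 4, 2, 3)], [(4, 1, 3, 4), (3, 4, 2, 3)], [(4, 5, 1, 4), (3, 4, 2, 3)],
    [(4, 5, 3, 1), (3, 4, 2, 3)], [(1, 4, 3, 4), (4, 3, 2, 3)], [(5, 1, 3, 4), (4, 3, 2, 3)],
    [(5, 4, 1, 4), (4, 3, 2, 3)], [(5, 4, 3, 1), (4, 3, 2, 3)],
    [(1, 5, 3, 4), (4, 4, 1, 3), (2, 2, 2, 1)], [(5, 1, 3, 4), (4, 4, 1, 3), (2, 2, 2, 1)],
    [(3, 5, 2, 4), (4, 4, 1, 3)], [(5, 3, 2, 4), (4, 4, 1, 3)], [(5, 5, 1, 4), (2, 2, 2, 1)],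
    [(5, 5, 2, 2), (4, 4, 1, 3)], [(5, 5, 3, 1), (4, 4, 1, 3)], [(1, 5, 3, 3), (4, 4, 2, 2)],
    [(5, 1, 3, 3), (4, 4, 2, 2)], [(5, 5, 1, 3), (4, 4, 2, 2)], [(5, 5, 3, 1), (4, 4, 2, 2)],
    [(1, 5, 4, 3), (4, 4, 3, 1), (3, 3, 1, 2)], [(5, 1, 4, 3), (4, 4, 3, 1), (3, 3, 1, 2)],
    [(5, 5, 1, 3), (4, 4, 3, 1)], [(4, 5, 4, 2)], [(5, 4, 4, 2)], [(5, 5, 2, 2), (4, 4, 3, 1)],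
    [(5, 5, 4, 1), (3, 3, 1, 2)], [(1, 5, 5, 3), (3, 3, 3, 1)], [(2, 4, 5, 3), (3, 3, 3, 1)],
    [(2, 5, 4, 3), (3, 3, 3, 1)], [(2, 5, 5, 2), (3, 3, 3, 1)],
    [(4, 1, 5, 3), (1, 4, 4, 2), (3, 3, 3, 1)], [(4, 5, 1, 3), (1, 4, 4, 2), (3, 3, 3, 1)],
    [(4, 5, 5, 1), (1, 4, 4, 2)], [(1, 4, 5, 3), (4, 1, 4, 2), (3, 3, 3, 1)],
    [(4, 2, 5, 3), (3, 3, 3, 1)], [(5, 1, 5, 3), (3, 3, 3, 1)], [(5, 2, 4, 3), (3, 3, 3, 1)],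
    [(5, 2, 5, 2), (3, 3, 3, 1)], [(5, 4, 1, 3), (4, 1, 4, 2), (3, 3, 3, 1)],
    [(5, 4, 5, 1), (4, 1, 4, 2)], [(1, 5, 4, 3), (4, 4, 1, 2), (3, 3, 3, 1)],
    [(5, 1, 4, 3), (4, 4, 1, 2), (3, 3, 3, 1)], [(4, 5, 2, 3), (3, 3, 3, 1)],
    [(5, 4, 2, 3), (3, 3, 3, 1)], [(5, 5, 1, 3), (3, 3, 3, 1)], [(5, 5, 2, 2), (3, 3, 3, 1)],
    [(5, 5, 4, 1), (4, 4, 1, 2)], [(1, 5, 5, 2), (4, 4, 4, 1)], [(5, 1, 5, 2), (4, 4, 4, 1)],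
    [(5, 5, 1, 2), (4, 4, 4, 1)], [(5, 5, 5, 1)]]

lemma fr_five : fr 5 = F5 := by decide +kernel

/-- the vector `(7, 7, 7, 7) - y` -/
def mir : Vec → Vec
  | (a, b, c, d) => (7 - a, 7 - b, 7 - c, 7 - d)

/-- two states fit together -/
def compat (L M : List Vec) : Bool := M.all (fun z => L.all (fun y => lt3 y z))

/-- the mirrored states -/
def G5 : List (List Vec) :=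
   [[(6, 2, 2, 2)], [(5, 6, 2, 2), (6, 3, 3, 3)], [(5, 2, 6, 2), (6, 3, 3, 3)],
    [(5, 2, 2, 6), (6, 3, 3, 3)], [(6, 3, 2, 2), (5, 6, 3, 3)], [(5, 5, 2, 2), (6, 4, 4, 4)],
    [(4, 6, 2, 2), (6, 4, 4, 4)], [(4, 5, 3, 2), (6, 4, 4, 4)], [(4, 5, 2, 3), (6, 4, 4, 4)],
    [(4, 3, 6, 2), (5, 6, 3, 3), (6, 4, 4, 4)], [(4, 3, 2, 6), (5, 6, 3, 3), (6, 4, 4, 4)],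
    [(6, 2, 3, 2), (5, 3, 6, 3)], [(4, 6, 3, 2), (5, 3, 6, 3), (6, 4, 4, 4)],
    [(5, 2, 5, 2), (6, 4, 4, 4)], [(4, 3, 5, 2), (6, 4, 4, 4)], [(4, 2, 6, 2), (6, 4, 4, 4)],
    [(4, 2, 5, 3), (6, 4, 4, 4)], [(4, 2, 3, 6), (5, 3, 6, 3), (6, 4, 4, 4)],
    [(6, 2, 2, 3), (5, 3, 3, 6)], [(4, 6, 2, 3), (5, 3, 3, 6), (6, 4, 4, 4)],
    [(4, 2, 6, 3), (5, 3, 3, 6), (6, 4, 4, 4)], [(5, 2, 2, 5), (6, 4, 4, 4)],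
    [(4, 3, 2, 5), (6, 4, 4, 4)], [(4, 2, 3, 5), (6, 4, 4, 4)], [(4, 2, 2, 6), (6, 4, 4, 4)],
    [(6, 3, 2, 2), (5, 6, 4, 4)], [(5, 5, 2, 2), (6, 4, 3, 3)], [(5, 3, 3, 2)], [(5, 3, 2, 3)],
    [(4, 6, 2, 2), (6, 4, 3, 3)], [(4, 3, 6, 2), (6, 4, 3, 3), (5, 6, 4, 4)],
    [(4, 3, 2, 6), (6, 4, 3, 3), (5, 6, 4, 4)], [(6, 4, 2, 2), (5, 5, 3, 3)],
    [(4, 6, 2, 2), (5, 5, 3, 3)], [(4, 4, 6, 2), (5, 5, 3, 3)], [(4, 4, 2, 6), (5, 5, 3, 3)],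
    [(6, 4, 2, 2), (4, 6, 3, 3)], [(5, 5, 2, 2), (4, 6, 3, 3)], [(3, 6, 2, 2), (6, 5, 5, 5)],
    [(3, 5, 4, 2), (4, 6, 3, 3)], [(3, 5, 2, 4), (4, 6, 3, 3)],
    [(3, 4, 6, 2), (4, 6, 3, 3), (6, 5, 5, 5)], [(3, 4, 2, 6), (4, 6, 3, 3), (6, 5, 5, 5)],
    [(6, 4, 3, 2), (4, 5, 4, 3)], [(3, 6, 3, 2), (4, 5, 4, 3)], [(3, 4, 6, 2), (4, 5, 4, 3)],
    [(3, 4, 3, 6), (4, 5, 4, 3)], [(6, 4, 2, 3), (4, 5, 3, 4)], [(3, 6, 2, 3), (4, 5, 3, 4)],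
    [(3, 4, 6, 3), (4, 5, 3, 4)], [(3, 4, 2, 6), (4, 5, 3, 4)],
    [(6, 3, 3, 2), (4, 4, 6, 3), (5, 6, 4, 4)], [(3, 6, 3, 2), (4, 4, 6, 3), (6, 5, 5, 5)],
    [(3, 5, 4, 2), (4, 4, 6, 3)], [(4, 3, 5, 2), (5, 6, 4, 4)], [(3, 4, 5, 2), (5, 6, 4, 4)],
    [(3, 3, 6, 2), (5, 6, 4, 4), (6, 5, 5, 5)], [(3, 3, 5, 3), (5, 6, 4, 4)],
    [(3, 3, 3, 6), (4, 4, 6, 3), (5, 6, 4, 4), (6, 5, 5, 5)],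
    [(6, 3, 2, 3), (4, 4, 3, 6), (5, 6, 4, 4)], [(3, 6, 2, 3), (4, 4, 3, 6), (6, 5, 5, 5)],
    [(3, 5, 2, 4), (4, 4, 3, 6)], [(3, 3, 6, 3), (4, 4, 3, 6), (5, 6, 4, 4), (6, 5, 5, 5)],
    [(4, 3, 2, 5), (5, 6, 4, 4)], [(3, 4, 2, 5), (5, 6, 4, 4)], [(3, 3, 3, 5), (5, 6, 4, 4)],
    [(3, 3, 2, 6), (5, 6, 4, 4), (6, 5, 5, 5)], [(6, 2, 3, 2), (5, 4, 6, 4)], [(5, 3, 3, 2)],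
    [(5, 2, 5, 2), (6, 3, 4, 3)], [(5, 2, 3, 3)], [(4, 6, 3, 2), (6, 3, 4, 3), (5, 4, 6, 4)],
    [(4, 2, 6, 2), (6, 3, 4, 3)], [(4, 2, 3, 6), (6, 3, 4, 3), (5, 4, 6, 4)],
    [(6, 3, 3, 2), (4, 6, 4, 3), (5, 4, 6, 4)], [(4, 5, 3, 2), (5, 4, 6, 4)],
    [(3, 6, 3, 2), (5, 4, 6, 4), (6, 5, 5, 5)], [(3, 5, 4, 2), (5, 4, 6, 4)],
    [(3, 5, 3, 3), (5, 4, 6, 4)], [(3, 4, 5, 2), (4, 6, 4, 3)],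
    [(3, 3, 6, 2), (4, 6, 4, 3), (6, 5, 5, 5)],
    [(3, 3, 3, 6), (4, 6, 4, 3), (5, 4, 6, 4), (6, 5, 5, 5)], [(6, 2, 4, 2), (5, 3, 5, 3)],
    [(4, 6, 4, 2), (5, 3, 5, 3)], [(4, 2, 6, 2), (5, 3, 5, 3)], [(4, 2, 4, 6), (5, 3, 5, 3)],
    [(6, 3, 4, 2), (4, 4, 5, 3)], [(3, 6, 4, 2), (4, 4, 5, 3)], [(3, 3, 6, 2), (4, 4, 5, 3)],
    [(3, 3, 4, 6), (4, 4, 5, 3)], [(6, 2, 4, 2), (4, 3, 6, 3)],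
    [(3, 6, 4, 2), (4, 3, 6, 3), (6, 5, 5, 5)], [(5, 2, 5, 2), (4, 3, 6, 3)],
    [(3, 4, 5, 2), (4, 3, 6, 3)], [(3, 2, 6, 2), (6, 5, 5, 5)], [(3, 2, 5, 4), (4, 3, 6, 3)],
    [(3, 2, 4, 6), (4, 3, 6, 3), (6, 5, 5, 5)], [(6, 2, 4, 3), (4, 3, 5, 4)],
    [(3, 6, 4, 3), (4, 3, 5, 4)], [(3, 2, 6, 3), (4, 3, 5, 4)], [(3, 2, 4, 6), (4, 3, 5, 4)],
    [(6, 2, 3, 3), (4, 3, 4, 6), (5, 4, 6, 4)],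
    [(3, 6, 3, 3), (4, 3, 4, 6), (5, 4, 6, 4), (6, 5, 5, 5)],
    [(3, 2, 6, 3), (4, 3, 4, 6), (6, 5, 5, 5)], [(3, 2, 5, 4), (4, 3, 4, 6)],
    [(4, 2, 3, 5), (5, 4, 6, 4)], [(3, 3, 3, 5), (5, 4, 6, 4)], [(3, 2, 4, 5), (5, 4, 6, 4)],
    [(3, 2, 3, 6), (5, 4, 6, 4), (6, 5, 5, 5)], [(6, 2, 2, 3), (5, 4, 4, 6)], [(5, 3, 2, 3)],
    [(5, 2, 3, 3)], [(5, 2, 2, 5), (6, 3, 3, 4)], [(4, 6, 2, 3), (6, 3, 3, 4), (5, 4, 4, 6)],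
    [(4, 2, 6, 3), (6, 3, 3, 4), (5, 4, 4, 6)], [(4, 2, 2, 6), (6, 3, 3, 4)],
    [(6, 3, 2, 3), (4, 6, 3, 4), (5, 4, 4, 6)], [(4, 5, 2, 3), (5, 4, 4, 6)],
    [(3, 6, 2, 3), (5, 4, 4, 6), (6, 5, 5, 5)], [(3, 5, 3, 3), (5, 4, 4, 6)],
    [(3, 5, 2, 4), (5, 4, 4, 6)], [(3, 3, 6, 3), (4, 6, 3, 4), (5, 4, 4, 6), (6, 5, 5, 5)],
    [(3, 4, 2, 5), (4, 6, 3, 4)], [(3, 3, 2, 6), (4, 6, 3, 4), (6, 5, 5, 5)],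
    [(6, 2, 3, 3), (4, 3, 6, 4), (5, 4, 4, 6)],
    [(3, 6, 3, 3), (4, 3, 6, 4), (5, 4, 4, 6), (6, 5, 5, 5)], [(4, 2, 5, 3), (5, 4, 4, 6)],
    [(3, 3, 5, 3), (5, 4, 4, 6)], [(3, 2, 6, 3), (5, 4, 4, 6), (6, 5, 5, 5)],
    [(3, 2, 5, 4), (5, 4, 4, 6)], [(3, 2, 4, 5), (4, 3, 6, 4)],
    [(3, 2, 3, 6), (4, 3, 6, 4), (6, 5, 5, 5)], [(6, 2, 2, 4), (5, 3, 3, 5)],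
    [(4, 6, 2, 4), (5, 3, 3, 5)], [(4, 2, 6, 4), (5, 3, 3, 5)], [(4, 2, 2, 6), (5, 3, 3, 5)],
    [(6, 3, 2, 4), (4, 4, 3, 5)], [(3, 6, 2, 4), (4, 4, 3, 5)], [(3, 3, 6, 4), (4, 4, 3, 5)],
    [(3, 3, 2, 6), (4, 4, 3, 5)], [(6, 2, 3, 4), (4, 3, 4, 5)], [(3, 6, 3, 4), (4, 3, 4, 5)],
    [(3, 2, 6, 4), (4, 3, 4, 5)], [(3, 2, 3, 6), (4, 3, 4, 5)], [(6, 2, 2, 4), (4, 3, 3, 6)],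
    [(3, 6, 2, 4), (4, 3, 3, 6), (6, 5, 5, 5)], [(3, 2, 6, 4), (4, 3, 3, 6), (6, 5, 5, 5)],
    [(5, 2, 2, 5), (4, 3, 3, 6)], [(3, 4, 2, 5), (4, 3, 3, 6)], [(3, 2, 4, 5), (4, 3, 3, 6)],
    [(3, 2, 2, 6), (6, 5, 5, 5)], [(6, 3, 2, 2), (5, 6, 5, 5)], [(5, 5, 2, 2), (6, 4, 3, 3)],
    [(5, 3, 4, 2), (6, 4, 3, 3)], [(5, 3, 2, 4), (6, 4, 3, 3)], [(4, 6, 2, 2), (6, 4, 3, 3)],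
    [(4, 3, 6, 2), (6, 4, 3, 3), (5, 6, 5, 5)], [(4, 3, 2, 6), (6, 4, 3, 3), (5, 6, 5, 5)],
    [(6, 4, 2, 2), (5, 5, 3, 3)], [(4, 6, 2, 2), (5, 5, 3, 3)], [(4, 4, 6, 2), (5, 5, 3, 3)],
    [(4, 4, 2, 6), (5, 5, 3, 3)], [(6, 3, 3, 2), (5, 4, 4, 3)], [(4, 6, 3, 2), (5, 4, 4, 3)],
    [(4, 3, 6, 2), (5, 4, 4, 3)], [(4, 3, 3, 6), (5, 4, 4, 3)], [(6, 3, 2, 3), (5, 4, 3, 4)],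
    [(4, 6, 2, 3), (5, 4, 3, 4)], [(4, 3, 6, 3), (5, 4, 3, 4)], [(4, 3, 2, 6), (5, 4, 3, 4)],
    [(6, 4, 2, 2), (4, 6, 3, 3)], [(5, 5, 2, 2), (4, 6, 3, 3)], [(3, 6, 2, 2), (6, 5, 4, 4)],
    [(3, 5, 3, 2)], [(3, 5, 2, 3)], [(3, 4, 6, 2), (4, 6, 3, 3), (6, 5, 4, 4)],
    [(3, 4, 2, 6), (4, 6, 3, 3), (6, 5, 4, 4)], [(6, 3, 3, 2), (4, 4, 6, 3), (5, 6, 5, 5)],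
    [(5, 3, 4, 2), (4, 4, 6, 3)], [(3, 6, 3, 2), (4, 4, 6, 3), (6, 5, 4, 4)],
    [(4, 3, 5, 2), (6, 5, 4, 4)], [(3, 4, 5, 2), (6, 5, 4, 4)],
    [(3, 3, 6, 2), (6, 5, 4, 4), (5, 6, 5, 5)], [(3, 3, 5, 3), (6, 5, 4, 4)],
    [(3, 3, 3, 6), (4, 4, 6, 3), (6, 5, 4, 4), (5, 6, 5, 5)],
    [(6, 3, 2, 3), (4, 4, 3, 6), (5, 6, 5, 5)], [(5, 3, 2, 4), (4, 4, 3, 6)],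
    [(3, 6, 2, 3), (4, 4, 3, 6), (6, 5, 4, 4)],
    [(3, 3, 6, 3), (4, 4, 3, 6), (6, 5, 4, 4), (5, 6, 5, 5)], [(4, 3, 2, 5), (6, 5, 4, 4)],
    [(3, 4, 2, 5), (6, 5, 4, 4)], [(3, 3, 3, 5), (6, 5, 4, 4)],
    [(3, 3, 2, 6), (6, 5, 4, 4), (5, 6, 5, 5)], [(6, 4, 2, 2), (4, 6, 4, 4)],
    [(5, 5, 2, 2), (4, 6, 4, 4)], [(5, 4, 3, 2), (4, 6, 4, 4)], [(5, 4, 2, 3), (4, 6, 4, 4)],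
    [(3, 6, 2, 2), (6, 5, 3, 3)], [(3, 4, 6, 2), (6, 5, 3, 3), (4, 6, 4, 4)],
    [(3, 4, 2, 6), (6, 5, 3, 3), (4, 6, 4, 4)], [(6, 5, 2, 2), (3, 6, 3, 3)], [(2, 6, 2, 2)],
    [(2, 5, 6, 2), (3, 6, 3, 3)], [(2, 5, 2, 6), (3, 6, 3, 3)],
    [(6, 4, 3, 2), (3, 5, 6, 3), (4, 6, 4, 4)], [(2, 6, 3, 2), (3, 5, 6, 3)],
    [(3, 4, 5, 2), (4, 6, 4, 4)], [(2, 5, 5, 2), (4, 6, 4, 4)], [(2, 4, 6, 2), (4, 6, 4, 4)],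
    [(2, 4, 5, 3), (4, 6, 4, 4)], [(2, 4, 3, 6), (3, 5, 6, 3), (4, 6, 4, 4)],
    [(6, 4, 2, 3), (3, 5, 3, 6), (4, 6, 4, 4)], [(2, 6, 2, 3), (3, 5, 3, 6)],
    [(2, 4, 6, 3), (3, 5, 3, 6), (4, 6, 4, 4)], [(3, 4, 2, 5), (4, 6, 4, 4)],
    [(2, 5, 2, 5), (4, 6, 4, 4)], [(2, 4, 3, 5), (4, 6, 4, 4)], [(2, 4, 2, 6), (4, 6, 4, 4)],
    [(6, 3, 3, 2), (4, 5, 6, 4), (5, 6, 5, 5)], [(5, 4, 3, 2), (4, 5, 6, 4)],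
    [(5, 3, 4, 2), (4, 5, 6, 4)], [(5, 3, 3, 3), (4, 5, 6, 4)],
    [(3, 6, 3, 2), (6, 4, 4, 3), (4, 5, 6, 4)], [(4, 3, 5, 2), (6, 4, 4, 3)],
    [(3, 3, 6, 2), (6, 4, 4, 3), (5, 6, 5, 5)],
    [(3, 3, 3, 6), (6, 4, 4, 3), (4, 5, 6, 4), (5, 6, 5, 5)],
    [(6, 4, 3, 2), (3, 6, 4, 3), (4, 5, 6, 4)], [(3, 5, 3, 2)], [(2, 6, 3, 2), (4, 5, 6, 4)],
    [(2, 5, 5, 2), (3, 6, 4, 3)], [(2, 5, 3, 3)], [(2, 4, 6, 2), (3, 6, 4, 3)],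
    [(2, 4, 3, 6), (3, 6, 4, 3), (4, 5, 6, 4)], [(6, 3, 4, 2), (4, 4, 5, 3)],
    [(3, 6, 4, 2), (4, 4, 5, 3)], [(3, 3, 6, 2), (4, 4, 5, 3)], [(3, 3, 4, 6), (4, 4, 5, 3)],
    [(6, 4, 4, 2), (3, 5, 5, 3)], [(2, 6, 4, 2), (3, 5, 5, 3)], [(2, 4, 6, 2), (3, 5, 5, 3)],
    [(2, 4, 4, 6), (3, 5, 5, 3)], [(6, 3, 4, 2), (3, 4, 6, 3), (5, 6, 5, 5)],
    [(2, 6, 4, 2), (3, 4, 6, 3)], [(4, 3, 5, 2), (3, 4, 6, 3)], [(2, 5, 5, 2), (3, 4, 6, 3)],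
    [(2, 3, 6, 2), (5, 6, 5, 5)], [(2, 3, 5, 4), (3, 4, 6, 3)],
    [(2, 3, 4, 6), (3, 4, 6, 3), (5, 6, 5, 5)], [(6, 3, 4, 3), (3, 4, 5, 4)],
    [(2, 6, 4, 3), (3, 4, 5, 4)], [(2, 3, 6, 3), (3, 4, 5, 4)], [(2, 3, 4, 6), (3, 4, 5, 4)],
    [(6, 3, 3, 3), (3, 4, 4, 6), (4, 5, 6, 4), (5, 6, 5, 5)],
    [(2, 6, 3, 3), (3, 4, 4, 6), (4, 5, 6, 4)], [(2, 3, 6, 3), (3, 4, 4, 6), (5, 6, 5, 5)],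
    [(2, 3, 5, 4), (3, 4, 4, 6)], [(3, 3, 3, 5), (4, 5, 6, 4)], [(2, 4, 3, 5), (4, 5, 6, 4)],
    [(2, 3, 4, 5), (4, 5, 6, 4)], [(2, 3, 3, 6), (4, 5, 6, 4), (5, 6, 5, 5)],
    [(6, 3, 2, 3), (4, 5, 4, 6), (5, 6, 5, 5)], [(5, 4, 2, 3), (4, 5, 4, 6)],
    [(5, 3, 3, 3), (4, 5, 4, 6)], [(5, 3, 2, 4), (4, 5, 4, 6)],
    [(3, 6, 2, 3), (6, 4, 3, 4), (4, 5, 4, 6)],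
    [(3, 3, 6, 3), (6, 4, 3, 4), (4, 5, 4, 6), (5, 6, 5, 5)], [(4, 3, 2, 5), (6, 4, 3, 4)],
    [(3, 3, 2, 6), (6, 4, 3, 4), (5, 6, 5, 5)], [(6, 4, 2, 3), (3, 6, 3, 4), (4, 5, 4, 6)],
    [(3, 5, 2, 3)], [(2, 6, 2, 3), (4, 5, 4, 6)], [(2, 5, 3, 3)], [(2, 5, 2, 5), (3, 6, 3, 4)],
    [(2, 4, 6, 3), (3, 6, 3, 4), (4, 5, 4, 6)], [(2, 4, 2, 6), (3, 6, 3, 4)],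
    [(6, 3, 3, 3), (3, 4, 6, 4), (4, 5, 4, 6), (5, 6, 5, 5)],
    [(2, 6, 3, 3), (3, 4, 6, 4), (4, 5, 4, 6)], [(3, 3, 5, 3), (4, 5, 4, 6)],
    [(2, 4, 5, 3), (4, 5, 4, 6)], [(2, 3, 6, 3), (4, 5, 4, 6), (5, 6, 5, 5)],
    [(2, 3, 5, 4), (4, 5, 4, 6)], [(2, 3, 4, 5), (3, 4, 6, 4)],
    [(2, 3, 3, 6), (3, 4, 6, 4), (5, 6, 5, 5)], [(6, 3, 2, 4), (4, 4, 3, 5)],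
    [(3, 6, 2, 4), (4, 4, 3, 5)], [(3, 3, 6, 4), (4, 4, 3, 5)], [(3, 3, 2, 6), (4, 4, 3, 5)],
    [(6, 4, 2, 4), (3, 5, 3, 5)], [(2, 6, 2, 4), (3, 5, 3, 5)], [(2, 4, 6, 4), (3, 5, 3, 5)],
    [(2, 4, 2, 6), (3, 5, 3, 5)], [(6, 3, 3, 4), (3, 4, 4, 5)], [(2, 6, 3, 4), (3, 4, 4, 5)],
    [(2, 3, 6, 4), (3, 4, 4, 5)], [(2, 3, 3, 6), (3, 4, 4, 5)],
    [(6, 3, 2, 4), (3, 4, 3, 6), (5, 6, 5, 5)], [(2, 6, 2, 4), (3, 4, 3, 6)],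
    [(2, 3, 6, 4), (3, 4, 3, 6), (5, 6, 5, 5)], [(4, 3, 2, 5), (3, 4, 3, 6)],
    [(2, 5, 2, 5), (3, 4, 3, 6)], [(2, 3, 4, 5), (3, 4, 3, 6)], [(2, 3, 2, 6), (5, 6, 5, 5)],
    [(6, 2, 3, 2), (5, 5, 6, 5)], [(5, 4, 3, 2), (6, 3, 4, 3)], [(5, 2, 5, 2), (6, 3, 4, 3)],
    [(5, 2, 3, 4), (6, 3, 4, 3)], [(4, 6, 3, 2), (6, 3, 4, 3), (5, 5, 6, 5)],
    [(4, 2, 6, 2), (6, 3, 4, 3)], [(4, 2, 3, 6), (6, 3, 4, 3), (5, 5, 6, 5)],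
    [(6, 3, 3, 2), (5, 4, 4, 3)], [(4, 6, 3, 2), (5, 4, 4, 3)], [(4, 3, 6, 2), (5, 4, 4, 3)],
    [(4, 3, 3, 6), (5, 4, 4, 3)], [(6, 2, 4, 2), (5, 3, 5, 3)], [(4, 6, 4, 2), (5, 3, 5, 3)],
    [(4, 2, 6, 2), (5, 3, 5, 3)], [(4, 2, 4, 6), (5, 3, 5, 3)], [(6, 2, 3, 3), (5, 3, 4, 4)],
    [(4, 6, 3, 3), (5, 3, 4, 4)], [(4, 2, 6, 3), (5, 3, 4, 4)], [(4, 2, 3, 6), (5, 3, 4, 4)],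
    [(6, 3, 3, 2), (4, 6, 4, 3), (5, 5, 6, 5)], [(5, 4, 3, 2), (4, 6, 4, 3)],
    [(4, 5, 3, 2), (6, 4, 5, 4)], [(3, 6, 3, 2), (6, 4, 5, 4), (5, 5, 6, 5)],
    [(3, 5, 4, 2), (6, 4, 5, 4)], [(3, 5, 3, 3), (6, 4, 5, 4)],
    [(3, 3, 6, 2), (4, 6, 4, 3), (6, 4, 5, 4)],
    [(3, 3, 3, 6), (4, 6, 4, 3), (6, 4, 5, 4), (5, 5, 6, 5)], [(6, 2, 4, 2), (4, 3, 6, 3)],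
    [(3, 6, 4, 2), (4, 3, 6, 3), (6, 4, 5, 4)], [(5, 2, 5, 2), (4, 3, 6, 3)], [(3, 3, 5, 2)],
    [(3, 2, 6, 2), (6, 4, 5, 4)], [(3, 2, 5, 3)], [(3, 2, 4, 6), (4, 3, 6, 3), (6, 4, 5, 4)],
    [(6, 2, 3, 3), (4, 3, 4, 6), (5, 5, 6, 5)], [(5, 2, 3, 4), (4, 3, 4, 6)],
    [(3, 6, 3, 3), (4, 3, 4, 6), (6, 4, 5, 4), (5, 5, 6, 5)],
    [(3, 2, 6, 3), (4, 3, 4, 6), (6, 4, 5, 4)], [(4, 2, 3, 5), (6, 4, 5, 4)],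
    [(3, 3, 3, 5), (6, 4, 5, 4)], [(3, 2, 4, 5), (6, 4, 5, 4)],
    [(3, 2, 3, 6), (6, 4, 5, 4), (5, 5, 6, 5)], [(6, 3, 3, 2), (4, 6, 5, 4), (5, 5, 6, 5)],
    [(5, 4, 3, 2), (4, 6, 5, 4)], [(5, 3, 4, 2), (4, 6, 5, 4)], [(5, 3, 3, 3), (4, 6, 5, 4)],
    [(4, 5, 3, 2), (6, 4, 4, 3)], [(3, 6, 3, 2), (6, 4, 4, 3), (5, 5, 6, 5)],
    [(3, 3, 6, 2), (6, 4, 4, 3), (4, 6, 5, 4)],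
    [(3, 3, 3, 6), (6, 4, 4, 3), (4, 6, 5, 4), (5, 5, 6, 5)], [(6, 4, 3, 2), (4, 5, 4, 3)],
    [(3, 6, 3, 2), (4, 5, 4, 3)], [(3, 4, 6, 2), (4, 5, 4, 3)], [(3, 4, 3, 6), (4, 5, 4, 3)],
    [(6, 4, 3, 2), (3, 6, 4, 3), (5, 5, 6, 5)], [(4, 5, 3, 2), (3, 6, 4, 3)],
    [(2, 6, 3, 2), (5, 5, 6, 5)], [(2, 5, 5, 2), (3, 6, 4, 3)], [(2, 5, 3, 4), (3, 6, 4, 3)],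
    [(2, 4, 6, 2), (3, 6, 4, 3)], [(2, 4, 3, 6), (3, 6, 4, 3), (5, 5, 6, 5)],
    [(6, 4, 4, 2), (3, 5, 5, 3)], [(2, 6, 4, 2), (3, 5, 5, 3)], [(2, 4, 6, 2), (3, 5, 5, 3)],
    [(2, 4, 4, 6), (3, 5, 5, 3)], [(6, 4, 3, 3), (3, 5, 4, 4)], [(2, 6, 3, 3), (3, 5, 4, 4)],
    [(2, 4, 6, 3), (3, 5, 4, 4)], [(2, 4, 3, 6), (3, 5, 4, 4)],
    [(6, 3, 4, 2), (3, 4, 6, 3), (4, 6, 5, 4)], [(2, 6, 4, 2), (3, 4, 6, 3)], [(3, 3, 5, 2)],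
    [(2, 5, 5, 2), (3, 4, 6, 3)], [(2, 3, 6, 2), (4, 6, 5, 4)], [(2, 3, 5, 3)],
    [(2, 3, 4, 6), (3, 4, 6, 3), (4, 6, 5, 4)],
    [(6, 3, 3, 3), (3, 4, 4, 6), (4, 6, 5, 4), (5, 5, 6, 5)],
    [(2, 6, 3, 3), (3, 4, 4, 6), (5, 5, 6, 5)], [(2, 5, 3, 4), (3, 4, 4, 6)],
    [(2, 3, 6, 3), (3, 4, 4, 6), (4, 6, 5, 4)], [(3, 3, 3, 5), (4, 6, 5, 4)],
    [(2, 4, 3, 5), (4, 6, 5, 4)], [(2, 3, 4, 5), (4, 6, 5, 4)],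
    [(2, 3, 3, 6), (4, 6, 5, 4), (5, 5, 6, 5)], [(6, 2, 4, 2), (4, 4, 6, 4)],
    [(5, 3, 4, 2), (4, 4, 6, 4)], [(5, 2, 5, 2), (4, 4, 6, 4)], [(5, 2, 4, 3), (4, 4, 6, 4)],
    [(3, 6, 4, 2), (6, 3, 5, 3), (4, 4, 6, 4)], [(3, 2, 6, 2), (6, 3, 5, 3)],
    [(3, 2, 4, 6), (6, 3, 5, 3), (4, 4, 6, 4)], [(6, 3, 4, 2), (3, 6, 5, 3), (4, 4, 6, 4)],
    [(3, 5, 4, 2), (4, 4, 6, 4)], [(2, 6, 4, 2), (4, 4, 6, 4)], [(2, 5, 5, 2), (4, 4, 6, 4)],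
    [(2, 5, 4, 3), (4, 4, 6, 4)], [(2, 3, 6, 2), (3, 6, 5, 3)],
    [(2, 3, 4, 6), (3, 6, 5, 3), (4, 4, 6, 4)], [(6, 2, 5, 2), (3, 3, 6, 3)],
    [(2, 6, 5, 2), (3, 3, 6, 3)], [(2, 2, 6, 2)], [(2, 2, 5, 6), (3, 3, 6, 3)],
    [(6, 2, 4, 3), (3, 3, 5, 6), (4, 4, 6, 4)], [(2, 6, 4, 3), (3, 3, 5, 6), (4, 4, 6, 4)],
    [(2, 2, 6, 3), (3, 3, 5, 6)], [(3, 2, 4, 5), (4, 4, 6, 4)], [(2, 3, 4, 5), (4, 4, 6, 4)],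
    [(2, 2, 5, 5), (4, 4, 6, 4)], [(2, 2, 4, 6), (4, 4, 6, 4)],
    [(6, 2, 3, 3), (4, 4, 5, 6), (5, 5, 6, 5)], [(5, 3, 3, 3), (4, 4, 5, 6)],
    [(5, 2, 4, 3), (4, 4, 5, 6)], [(5, 2, 3, 4), (4, 4, 5, 6)],
    [(3, 6, 3, 3), (6, 3, 4, 4), (4, 4, 5, 6), (5, 5, 6, 5)],
    [(3, 2, 6, 3), (6, 3, 4, 4), (4, 4, 5, 6)], [(4, 2, 3, 5), (6, 3, 4, 4)],
    [(3, 2, 3, 6), (6, 3, 4, 4), (5, 5, 6, 5)],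
    [(6, 3, 3, 3), (3, 6, 4, 4), (4, 4, 5, 6), (5, 5, 6, 5)], [(3, 5, 3, 3), (4, 4, 5, 6)],
    [(2, 6, 3, 3), (4, 4, 5, 6), (5, 5, 6, 5)], [(2, 5, 4, 3), (4, 4, 5, 6)],
    [(2, 5, 3, 4), (4, 4, 5, 6)], [(2, 3, 6, 3), (3, 6, 4, 4), (4, 4, 5, 6)],
    [(2, 4, 3, 5), (3, 6, 4, 4)], [(2, 3, 3, 6), (3, 6, 4, 4), (5, 5, 6, 5)],
    [(6, 2, 4, 3), (3, 3, 6, 4), (4, 4, 5, 6)], [(2, 6, 4, 3), (3, 3, 6, 4), (4, 4, 5, 6)],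
    [(3, 2, 5, 3)], [(2, 3, 5, 3)], [(2, 2, 6, 3), (4, 4, 5, 6)], [(2, 2, 5, 5), (3, 3, 6, 4)],
    [(2, 2, 4, 6), (3, 3, 6, 4)], [(6, 2, 3, 4), (4, 3, 4, 5)], [(3, 6, 3, 4), (4, 3, 4, 5)],
    [(3, 2, 6, 4), (4, 3, 4, 5)], [(3, 2, 3, 6), (4, 3, 4, 5)], [(6, 3, 3, 4), (3, 4, 4, 5)],
    [(2, 6, 3, 4), (3, 4, 4, 5)], [(2, 3, 6, 4), (3, 4, 4, 5)], [(2, 3, 3, 6), (3, 4, 4, 5)],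
    [(6, 2, 4, 4), (3, 3, 5, 5)], [(2, 6, 4, 4), (3, 3, 5, 5)], [(2, 2, 6, 4), (3, 3, 5, 5)],
    [(2, 2, 4, 6), (3, 3, 5, 5)], [(6, 2, 3, 4), (3, 3, 4, 6), (5, 5, 6, 5)],
    [(2, 6, 3, 4), (3, 3, 4, 6), (5, 5, 6, 5)], [(2, 2, 6, 4), (3, 3, 4, 6)],
    [(4, 2, 3, 5), (3, 3, 4, 6)], [(2, 4, 3, 5), (3, 3, 4, 6)], [(2, 2, 5, 5), (3, 3, 4, 6)],
    [(2, 2, 3, 6), (5, 5, 6, 5)], [(6, 2, 2, 3), (5, 5, 5, 6)], [(5, 4, 2, 3), (6, 3, 3, 4)],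
    [(5, 2, 4, 3), (6, 3, 3, 4)], [(5, 2, 2, 5), (6, 3, 3, 4)],
    [(4, 6, 2, 3), (6, 3, 3, 4), (5, 5, 5, 6)], [(4, 2, 6, 3), (6, 3, 3, 4), (5, 5, 5, 6)],
    [(4, 2, 2, 6), (6, 3, 3, 4)], [(6, 3, 2, 3), (5, 4, 3, 4)], [(4, 6, 2, 3), (5, 4, 3, 4)],
    [(4, 3, 6, 3), (5, 4, 3, 4)], [(4, 3, 2, 6), (5, 4, 3, 4)], [(6, 2, 3, 3), (5, 3, 4, 4)],
    [(4, 6, 3, 3), (5, 3, 4, 4)], [(4, 2, 6, 3), (5, 3, 4, 4)], [(4, 2, 3, 6), (5, 3, 4, 4)],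
    [(6, 2, 2, 4), (5, 3, 3, 5)], [(4, 6, 2, 4), (5, 3, 3, 5)], [(4, 2, 6, 4), (5, 3, 3, 5)],
    [(4, 2, 2, 6), (5, 3, 3, 5)], [(6, 3, 2, 3), (4, 6, 3, 4), (5, 5, 5, 6)],
    [(5, 4, 2, 3), (4, 6, 3, 4)], [(4, 5, 2, 3), (6, 4, 4, 5)],
    [(3, 6, 2, 3), (6, 4, 4, 5), (5, 5, 5, 6)], [(3, 5, 3, 3), (6, 4, 4, 5)],
    [(3, 5, 2, 4), (6, 4, 4, 5)], [(3, 3, 6, 3), (4, 6, 3, 4), (6, 4, 4, 5), (5, 5, 5, 6)],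
    [(3, 3, 2, 6), (4, 6, 3, 4), (6, 4, 4, 5)], [(6, 2, 3, 3), (4, 3, 6, 4), (5, 5, 5, 6)],
    [(5, 2, 4, 3), (4, 3, 6, 4)], [(3, 6, 3, 3), (4, 3, 6, 4), (6, 4, 4, 5), (5, 5, 5, 6)],
    [(4, 2, 5, 3), (6, 4, 4, 5)], [(3, 3, 5, 3), (6, 4, 4, 5)],
    [(3, 2, 6, 3), (6, 4, 4, 5), (5, 5, 5, 6)], [(3, 2, 5, 4), (6, 4, 4, 5)],
    [(3, 2, 3, 6), (4, 3, 6, 4), (6, 4, 4, 5)], [(6, 2, 2, 4), (4, 3, 3, 6)],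
    [(3, 6, 2, 4), (4, 3, 3, 6), (6, 4, 4, 5)], [(3, 2, 6, 4), (4, 3, 3, 6), (6, 4, 4, 5)],
    [(5, 2, 2, 5), (4, 3, 3, 6)], [(3, 3, 2, 5)], [(3, 2, 3, 5)], [(3, 2, 2, 6), (6, 4, 4, 5)],
    [(6, 3, 2, 3), (4, 6, 4, 5), (5, 5, 5, 6)], [(5, 4, 2, 3), (4, 6, 4, 5)],
    [(5, 3, 3, 3), (4, 6, 4, 5)], [(5, 3, 2, 4), (4, 6, 4, 5)], [(4, 5, 2, 3), (6, 4, 3, 4)],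
    [(3, 6, 2, 3), (6, 4, 3, 4), (5, 5, 5, 6)],
    [(3, 3, 6, 3), (6, 4, 3, 4), (4, 6, 4, 5), (5, 5, 5, 6)],
    [(3, 3, 2, 6), (6, 4, 3, 4), (4, 6, 4, 5)], [(6, 4, 2, 3), (4, 5, 3, 4)],
    [(3, 6, 2, 3), (4, 5, 3, 4)], [(3, 4, 6, 3), (4, 5, 3, 4)], [(3, 4, 2, 6), (4, 5, 3, 4)],
    [(6, 4, 2, 3), (3, 6, 3, 4), (5, 5, 5, 6)], [(4, 5, 2, 3), (3, 6, 3, 4)],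
    [(2, 6, 2, 3), (5, 5, 5, 6)], [(2, 5, 4, 3), (3, 6, 3, 4)], [(2, 5, 2, 5), (3, 6, 3, 4)],
    [(2, 4, 6, 3), (3, 6, 3, 4), (5, 5, 5, 6)], [(2, 4, 2, 6), (3, 6, 3, 4)],
    [(6, 4, 3, 3), (3, 5, 4, 4)], [(2, 6, 3, 3), (3, 5, 4, 4)], [(2, 4, 6, 3), (3, 5, 4, 4)],
    [(2, 4, 3, 6), (3, 5, 4, 4)], [(6, 4, 2, 4), (3, 5, 3, 5)], [(2, 6, 2, 4), (3, 5, 3, 5)],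
    [(2, 4, 6, 4), (3, 5, 3, 5)], [(2, 4, 2, 6), (3, 5, 3, 5)],
    [(6, 3, 3, 3), (3, 4, 6, 4), (4, 6, 4, 5), (5, 5, 5, 6)],
    [(2, 6, 3, 3), (3, 4, 6, 4), (5, 5, 5, 6)], [(2, 5, 4, 3), (3, 4, 6, 4)],
    [(3, 3, 5, 3), (4, 6, 4, 5)], [(2, 4, 5, 3), (4, 6, 4, 5)],
    [(2, 3, 6, 3), (4, 6, 4, 5), (5, 5, 5, 6)], [(2, 3, 5, 4), (4, 6, 4, 5)],
    [(2, 3, 3, 6), (3, 4, 6, 4), (4, 6, 4, 5)], [(6, 3, 2, 4), (3, 4, 3, 6), (4, 6, 4, 5)],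
    [(2, 6, 2, 4), (3, 4, 3, 6)], [(2, 3, 6, 4), (3, 4, 3, 6), (4, 6, 4, 5)], [(3, 3, 2, 5)],
    [(2, 5, 2, 5), (3, 4, 3, 6)], [(2, 3, 3, 5)], [(2, 3, 2, 6), (4, 6, 4, 5)],
    [(6, 2, 3, 3), (4, 4, 6, 5), (5, 5, 5, 6)], [(5, 3, 3, 3), (4, 4, 6, 5)],
    [(5, 2, 4, 3), (4, 4, 6, 5)], [(5, 2, 3, 4), (4, 4, 6, 5)],
    [(3, 6, 3, 3), (6, 3, 4, 4), (4, 4, 6, 5), (5, 5, 5, 6)], [(4, 2, 5, 3), (6, 3, 4, 4)],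
    [(3, 2, 6, 3), (6, 3, 4, 4), (5, 5, 5, 6)], [(3, 2, 3, 6), (6, 3, 4, 4), (4, 4, 6, 5)],
    [(6, 3, 3, 3), (3, 6, 4, 4), (4, 4, 6, 5), (5, 5, 5, 6)], [(3, 5, 3, 3), (4, 4, 6, 5)],
    [(2, 6, 3, 3), (4, 4, 6, 5), (5, 5, 5, 6)], [(2, 5, 4, 3), (4, 4, 6, 5)],
    [(2, 5, 3, 4), (4, 4, 6, 5)], [(2, 4, 5, 3), (3, 6, 4, 4)],
    [(2, 3, 6, 3), (3, 6, 4, 4), (5, 5, 5, 6)], [(2, 3, 3, 6), (3, 6, 4, 4), (4, 4, 6, 5)],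
    [(6, 2, 4, 3), (4, 3, 5, 4)], [(3, 6, 4, 3), (4, 3, 5, 4)], [(3, 2, 6, 3), (4, 3, 5, 4)],
    [(3, 2, 4, 6), (4, 3, 5, 4)], [(6, 3, 4, 3), (3, 4, 5, 4)], [(2, 6, 4, 3), (3, 4, 5, 4)],
    [(2, 3, 6, 3), (3, 4, 5, 4)], [(2, 3, 4, 6), (3, 4, 5, 4)],
    [(6, 2, 4, 3), (3, 3, 6, 4), (5, 5, 5, 6)], [(2, 6, 4, 3), (3, 3, 6, 4), (5, 5, 5, 6)],
    [(4, 2, 5, 3), (3, 3, 6, 4)], [(2, 4, 5, 3), (3, 3, 6, 4)], [(2, 2, 6, 3), (5, 5, 5, 6)],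
    [(2, 2, 5, 5), (3, 3, 6, 4)], [(2, 2, 4, 6), (3, 3, 6, 4)], [(6, 2, 4, 4), (3, 3, 5, 5)],
    [(2, 6, 4, 4), (3, 3, 5, 5)], [(2, 2, 6, 4), (3, 3, 5, 5)], [(2, 2, 4, 6), (3, 3, 5, 5)],
    [(6, 2, 3, 4), (3, 3, 4, 6), (4, 4, 6, 5)], [(2, 6, 3, 4), (3, 3, 4, 6), (4, 4, 6, 5)],
    [(2, 2, 6, 4), (3, 3, 4, 6)], [(3, 2, 3, 5)], [(2, 3, 3, 5)], [(2, 2, 5, 5), (3, 3, 4, 6)],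
    [(2, 2, 3, 6), (4, 4, 6, 5)], [(6, 2, 2, 4), (4, 4, 4, 6)], [(5, 3, 2, 4), (4, 4, 4, 6)],
    [(5, 2, 3, 4), (4, 4, 4, 6)], [(5, 2, 2, 5), (4, 4, 4, 6)],
    [(3, 6, 2, 4), (6, 3, 3, 5), (4, 4, 4, 6)], [(3, 2, 6, 4), (6, 3, 3, 5), (4, 4, 4, 6)],
    [(3, 2, 2, 6), (6, 3, 3, 5)], [(6, 3, 2, 4), (3, 6, 3, 5), (4, 4, 4, 6)],
    [(3, 5, 2, 4), (4, 4, 4, 6)], [(2, 6, 2, 4), (4, 4, 4, 6)], [(2, 5, 3, 4), (4, 4, 4, 6)],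
    [(2, 5, 2, 5), (4, 4, 4, 6)], [(2, 3, 6, 4), (3, 6, 3, 5), (4, 4, 4, 6)],
    [(2, 3, 2, 6), (3, 6, 3, 5)], [(6, 2, 3, 4), (3, 3, 6, 5), (4, 4, 4, 6)],
    [(2, 6, 3, 4), (3, 3, 6, 5), (4, 4, 4, 6)], [(3, 2, 5, 4), (4, 4, 4, 6)],
    [(2, 3, 5, 4), (4, 4, 4, 6)], [(2, 2, 6, 4), (4, 4, 4, 6)], [(2, 2, 5, 5), (4, 4, 4, 6)],
    [(2, 2, 3, 6), (3, 3, 6, 5)], [(6, 2, 2, 5), (3, 3, 3, 6)], [(2, 6, 2, 5), (3, 3, 3, 6)],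
    [(2, 2, 6, 5), (3, 3, 3, 6)], [(2, 2, 2, 6)]]

lemma mir_F5 : F5.map (fun M => M.map mir) = G5 := by decide +kernel

lemma no_compat : (F5.all fun L => G5.all fun M => !(compat L M)) = true := by decide +kernel

end Pool.Agent.Q81.CT
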