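import Pool.Agent.Q81.CT.Search

/-!
# Soundness of the search
-/

set_option autoImplicit false

namespace Pool.Agent.Q81.CT

/-- coordinatewise comparison -/
def Le (x y : Vec) : Prop := x.1 ≤ y.1 ∧ x.2.1 ≤ y.2.1 ∧ x.2.2.1 ≤ y.2.2.1 ∧ x.2.2.2 ≤ y.2.2.2

lemma le4_iff (x y : Vec) : le4 x y = true ↔ Le x y := by
  obtain ⟨a, b, c, d⟩ := x
  obtain ⟨a', b', c', d'⟩ := y
  simp [le4, Le]

lemma Le.refl (x : Vec) : Le x x := ⟨le_rfl, le_rfl, le_rfl, le_rfl⟩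

lemma Le.trans {x y z : Vec} (h : Le x y) (h' : Le y z) : Le x z :=
  ⟨h.1.trans h'.1, h.2.1.trans h'.2.1, h.2.2.1.trans h'.2.2.1, h.2.2.2.trans h'.2.2.2⟩

/-- strict increase in three coordinates, as a proposition -/
def Lt3 (x y : Vec) : Prop :=
  (x.2.1 < y.2.1 ∧ x.2.2.1 < y.2.2.1 ∧ x.2.2.2 < y.2.2.2) ∨
  (x.1 < y.1 ∧ x.2.2.1 < y.2.2.1 ∧ x.2.2.2 < y.2.2.2) ∨
  (x.1 < y.1 ∧ x.2.1 < y.2.1 ∧ x.2.2.2 < y.2.2.2) ∨
  (x.1 < y.1 ∧ x.2.1 < y.2.1 ∧ x.2.2.1 < y.2.2.1)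

lemma lt3_iff (x y : Vec) : lt3 x y = true ↔ Lt3 x y := by
  obtain ⟨a, b, c, d⟩ := x
  obtain ⟨a', b', c', d'⟩ := y
  simp only [lt3, Lt3, Bool.or_eq_true, Bool.and_eq_true, Nat.blt_eq]
  tauto

lemma Lt3.mono {x x' y y' : Vec} (h : Lt3 x' y) (hx : Le x x') (hy : Le y y') : Lt3 x y' := by
  obtain ⟨a1, a2, a3, a4⟩ := hx
  obtain ⟨b1, b2, b3, b4⟩ := hy
  rcases h with ⟨h1, h2, h3⟩ | ⟨h1, h2, h3⟩ | ⟨h1, h2, h3⟩ | ⟨h1, h2, h3⟩
  · exact Or.inl ⟨by omega, by omega, by omega⟩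
  · exact Or.inr (Or.inl ⟨by omega, by omega, by omega⟩)
  · exact Or.inr (Or.inr (Or.inl ⟨by omega, by omega, by omega⟩))
  · exact Or.inr (Or.inr (Or.inr ⟨by omega, by omega, by omega⟩))

lemma mx_le {a b c : ℕ} (h : a ≤ c) (h' : b ≤ c) : mx a b ≤ c := by
  unfold mx
  cases Nat.ble a b <;> simp [h, h']

lemma up_le {y b z : Vec} (h : Lt3 y z) (hb : Le b z) :
    Le (up0 y b) z ∨ Le (up1 y b) z ∨ Le (up2 y b) z ∨ Le (up3 y b) z := by
  obtain ⟨y1, y2, y3, y4⟩ := y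
  obtain ⟨b1, b2, b3, b4⟩ := b
  obtain ⟨z1, z2, z3, z4⟩ := z
  obtain ⟨h1, h2, h3, h4⟩ := hb
  rcases h with ⟨g1, g2, g3⟩ | ⟨g1, g2, g3⟩ | ⟨g1, g2, g3⟩ | ⟨g1, g2, g3⟩
  · exact Or.inl ⟨h1, mx_le h2 g1, mx_le h3 g2, mx_le h4 g3⟩
  · exact Or.inr (Or.inl ⟨mx_le h1 g1, h2, mx_le h3 g2, mx_le h4 g3⟩)
  · exact Or.inr (Or.inr (Or.inl ⟨mx_le h1 g1, mx_le h2 g2, h3, mx_le h4 g3⟩))
  · exact Or.inr (Or.inr (Or.inr ⟨mx_le h1 g1, mx_le h2 g2, mx_le h3 g3, h4⟩))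

lemma ins_sound (x : Vec) (acc : List Vec) (w : Vec) (hw : w = x ∨ w ∈ acc) :
    ∃ w' ∈ ins x acc, Le w' w := by
  unfold ins
  by_cases h : acc.any (fun y => le4 y x) = true
  · rw [h, cond_true]
    rcases hw with rfl | hw
    · rw [List.any_eq_true] at h
      obtain ⟨y, hy, hyx⟩ := h
      exact ⟨y, hy, (le4_iff _ _).1 hyx⟩
    · exact ⟨w, hw, Le.refl w⟩
  · rw [Bool.not_eq_true] at h
    rw [h, cond_false]
    rcases hw with rfl | hw
    · exact ⟨w, List.mem_cons_self, Le.refl w⟩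
    · by_cases hx : le4 x w = true
      · exact ⟨x, List.mem_cons_self, (le4_iff _ _).1 hx⟩
      · refine ⟨w, List.mem_cons_of_mem _ ?_, Le.refl w⟩
        rw [List.mem_filter]
        exact ⟨hw, by simpa using hx⟩

lemma prune_sound (l : List Vec) (w : Vec) (hw : w ∈ l) (h6 : Le w (6, 6, 6, 6)) :
    ∃ w' ∈ prune l, Le w' w := by
  induction l with
  | nil => simp at hw
  | cons x l ih =>
    have hdef : prune (x :: l) = bif le4 x (6, 6, 6, 6) then ins x (prune l) else prune l := rfl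
    rw [hdef]
    by_cases hx : le4 x (6, 6, 6, 6) = true
    · rw [hx, cond_true]
      rcases List.mem_cons.1 hw with rfl | hw
      · exact ins_sound _ _ _ (Or.inl rfl)
      · obtain ⟨w', hw', hle⟩ := ih hw
        obtain ⟨w'', hw'', hle'⟩ := ins_sound x (prune l) w' (Or.inr hw')
        exact ⟨w'', hw'', hle'.trans hle⟩
    · have hne : w ≠ x := by
        rintro rfl
        exact hx ((le4_iff _ _).2 h6)
      rw [Bool.not_eq_true] at hx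
      rw [hx, cond_false]
      rcases List.mem_cons.1 hw with h | hw
      · exact absurd h hne
      · exact ih hw

lemma cands_sound (L : List Vec) (z : Vec) (hL : ∀ y ∈ L, Lt3 y z) (h1 : Le (1, 1, 1, 1) z)
    (h6 : Le z (6, 6, 6, 6)) : ∃ b ∈ cands L, Le b z := by
  induction L with
  | nil => exact ⟨(1, 1, 1, 1), by simp [cands], h1⟩
  | cons y L ih =>
    obtain ⟨b, hb, hbz⟩ := ih (fun y' hy' => hL y' (List.mem_cons_of_mem _ hy'))
    have hy := hL y List.mem_cons_self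
    have key : ∃ w ∈ (cands L).flatMap (fun b => [up0 y b, up1 y b, up2 y b, up3 y b]),
        Le w z := by
      rcases up_le hy hbz with h | h | h | h
      · exact ⟨_, List.mem_flatMap.2 ⟨b, hb, by simp⟩, h⟩
      · exact ⟨_, List.mem_flatMap.2 ⟨b, hb, by simp⟩, h⟩
      · exact ⟨_, List.mem_flatMap.2 ⟨b, hb, by simp⟩, h⟩
      · exact ⟨_, List.mem_flatMap.2 ⟨b, hb, by simp⟩, h⟩
    obtain ⟨w, hw, hwz⟩ := key
    obtain ⟨w', hw', hle⟩ := prune_sound _ w hw (hwz.trans h6)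
    exact ⟨w', hw', hle.trans hwz⟩

/-- every sequence is dominated by a state -/
lemma fr_sound (x : ℕ → Vec) (N : ℕ) (hlt : ∀ a b, a < b → b < N → Lt3 (x a) (x b))
    (h1 : ∀ a < N, Le (1, 1, 1, 1) (x a)) (h6 : ∀ a < N, Le (x a) (6, 6, 6, 6)) (k : ℕ)
    (hk : k ≤ N) : ∃ L ∈ fr k, ∀ y ∈ L, ∃ a < k, Le y (x a) := by
  induction k with
  | zero => exact ⟨[], by simp [fr], by simp⟩
  | succ k ih =>
    obtain ⟨L, hL, hdom⟩ := ih (by omega)
    have hfeas : ∀ y ∈ L, Lt3 y (x k) := by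
      intro y hy
      obtain ⟨a, ha, hle⟩ := hdom y hy
      exact (hlt a k ha (by omega)).mono hle (Le.refl _)
    obtain ⟨b, hb, hbz⟩ := cands_sound L (x k) hfeas (h1 k (by omega)) (h6 k (by omega))
    refine ⟨addm b L, ?_, ?_⟩
    · show addm b L ∈ (fr k).flatMap (fun L => (cands L).map (fun y => addm y L))
      exact List.mem_flatMap.2 ⟨L, hL, List.mem_map.2 ⟨b, hb, rfl⟩⟩
    · intro y hy
      unfold addm at hy
      rcases List.mem_cons.1 hy with rfl | hy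
      · exact ⟨k, by omega, hbz⟩
      · obtain ⟨a, ha, hle⟩ := hdom y (List.mem_filter.1 hy).1
        exact ⟨a, by omega, hle⟩

end Pool.Agent.Q81.CT
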