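import Pool.Agent.Q81.CT.Data
import Pool.Agent.Q81.CT.Sound

/-!
# No ten vectors of `[6]^4` which pairwise increase in three coordinates
-/

set_option autoImplicit false

namespace Pool.Agent.Q81.CT

lemma mir_Lt3 {x y : Vec} (h : Lt3 x y) (hx : Le x (6, 6, 6, 6)) : Lt3 (mir y) (mir x) := by
  obtain ⟨x1, x2, x3, x4⟩ := x
  obtain ⟨y1, y2, y3, y4⟩ := y
  obtain ⟨h1, h2, h3, h4⟩ := hx
  simp only at h1 h2 h3 h4
  simp only [Lt3, mir] at h ⊢
  omega

lemma mir_ge {x : Vec} (hx : Le x (6, 6, 6, 6)) : Le (1, 1, 1, 1) (mir x) := by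
  obtain ⟨x1, x2, x3, x4⟩ := x
  obtain ⟨h1, h2, h3, h4⟩ := hx
  simp only at h1 h2 h3 h4
  simp only [Le, mir]
  omega

lemma mir_le {x : Vec} (hx : Le (1, 1, 1, 1) x) : Le (mir x) (6, 6, 6, 6) := by
  obtain ⟨x1, x2, x3, x4⟩ := x
  obtain ⟨h1, h2, h3, h4⟩ := hx
  simp only at h1 h2 h3 h4
  simp only [Le, mir]
  omega

lemma le_mir {x z : Vec} (h : Le z (mir x)) (hx : Le x (6, 6, 6, 6)) : Le x (mir z) := by
  obtain ⟨x1, x2, x3, x4⟩ := x
  obtain ⟨z1, z2, z3, z4⟩ := z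
  obtain ⟨h1, h2, h3, h4⟩ := hx
  simp only at h1 h2 h3 h4
  simp only [Le, mir] at h ⊢
  omega

/-- There are no ten vectors with coordinates in `{1, …, 6}` such that any two of them increase
strictly in at least three coordinates. -/
theorem no_ten (x : ℕ → Vec) (hlt : ∀ a b, a < b → b < 10 → Lt3 (x a) (x b))
    (h1 : ∀ a < 10, Le (1, 1, 1, 1) (x a)) (h6 : ∀ a < 10, Le (x a) (6, 6, 6, 6)) : False := by
  obtain ⟨L, hL, hLd⟩ := fr_sound x 10 hlt h1 h6 5 (by norm_num)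
  obtain ⟨M, hM, hMd⟩ := fr_sound (fun a => mir (x (9 - a))) 10
    (fun a b hab hb => mir_Lt3 (hlt (9 - b) (9 - a) (by omega) (by omega)) (h6 _ (by omega)))
    (fun a _ => mir_ge (h6 _ (by omega))) (fun a _ => mir_le (h1 _ (by omega))) 5 (by norm_num)
  rw [fr_five] at hL hM
  have hG : M.map mir ∈ G5 := by
    rw [← mir_F5]
    exact List.mem_map.2 ⟨M, hM, rfl⟩
  have h := no_compat
  rw [List.all_eq_true] at h
  have h2 := h L hL
  rw [List.all_eq_true] at h2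
  have h3 := h2 _ hG
  have h4 : compat L (M.map mir) = true := by
    unfold compat
    rw [List.all_eq_true]
    intro z hz
    rw [List.all_eq_true]
    intro y hy
    obtain ⟨z0, hz0, rfl⟩ := List.mem_map.1 hz
    obtain ⟨a, ha, hya⟩ := hLd y hy
    obtain ⟨b, hb, hzb⟩ := hMd z0 hz0
    rw [lt3_iff]
    exact (hlt a (9 - b) (by omega) (by omega)).mono hya (le_mir hzb (h6 _ (by omega)))
  rw [h4] at h3
  exact absurd h3 (by simp)

end Pool.Agent.Q81.CT
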