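import Mathlib

/-!
# Ten vectors in `[6]^4` which pairwise increase in three coordinates do not exist
-/

set_option autoImplicit false

namespace Pool.Agent.Q81.CT

/-- vectors with four natural coordinates -/
abbrev Vec := ℕ × ℕ × ℕ × ℕ

/-- coordinatewise comparison -/
def le4 : Vec → Vec → Bool
  | (a, b, c, d), (a', b', c', d') =>
    Nat.ble a a' && (Nat.ble b b' && (Nat.ble c c' && Nat.ble d d'))

/-- strict increase in at least three coordinates -/
def lt3 : Vec → Vec → Bool
  | (a, b, c, d), (a', b', c', d') =>
    (Nat.blt a a' && (Nat.blt b b' && (Nat.blt c c' || Nat.blt d d'))) ||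
      (Nat.blt c c' && (Nat.blt d d' && (Nat.blt a a' || Nat.blt b b')))

/-- maximum -/
def mx (a b : ℕ) : ℕ := bif Nat.ble a b then b else a

/-- `b` raised above `y` in all coordinates but the first -/
def up0 : Vec → Vec → Vec
  | (_, y2, y3, y4), (b1, b2, b3, b4) => (b1, mx b2 y2.succ, mx b3 y3.succ, mx b4 y4.succ)
/-- `b` raised above `y` in all coordinates but the second -/
def up1 : Vec → Vec → Vec
  | (y1, _, y3, y4), (b1, b2, b3, b4) => (mx b1 y1.succ, b2, mx b3 y3.succ, mx b4 y4.succ)
/-- `b` raised above `y` in all coordinates but the third -/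
def up2 : Vec → Vec → Vec
  | (y1, y2, _, y4), (b1, b2, b3, b4) => (mx b1 y1.succ, mx b2 y2.succ, b3, mx b4 y4.succ)
/-- `b` raised above `y` in all coordinates but the fourth -/
def up3 : Vec → Vec → Vec
  | (y1, y2, y3, _), (b1, b2, b3, b4) => (mx b1 y1.succ, mx b2 y2.succ, mx b3 y3.succ, b4)

/-- insertion into a list of minimal vectors -/
def ins (x : Vec) (acc : List Vec) : List Vec :=
  bif acc.any (fun y => le4 y x) then acc else x :: acc.filter (fun y => !(le4 x y))

/-- keep the minimal vectors with coordinates at most `6` -/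
def prune (l : List Vec) : List Vec :=
  l.foldr (fun x acc => bif le4 x (6, 6, 6, 6) then ins x acc else acc) []

/-- the minimal vectors above all vectors of a list -/
def cands : List Vec → List Vec
  | [] => [(1, 1, 1, 1)]
  | y :: L => prune ((cands L).flatMap (fun b => [up0 y b, up1 y b, up2 y b, up3 y b]))

/-- add a vector to a state -/
def addm (y : Vec) (L : List Vec) : List Vec := y :: L.filter (fun x => !(le4 x y))

/-- the states reachable in `k` steps -/
def fr : ℕ → List (List Vec)
  | 0 => [[]]
  | k + 1 => (fr k).flatMap (fun L => (cands L).map (fun y => addm y L))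

end Pool.Agent.Q81.CT
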